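import Pool.Agent.Helper127.Kauf.Defs

/-!
# The Euler characteristics of the Seifert surfaces of a link are bounded above

The number of colourings of the components of a link by two colours is an isotopy invariant, and
it is at least `2 ^ χ(R)` for each Seifert surface `R` of the link.
-/

set_option autoImplicit false

namespace Pool.Agent.Helper127.Kauf

open Piece

/-! ### Operators on functions of colour lists -/

abbrev Fn : Type := List Bool → ℕ

/-- an operator acting behind the first `i` strands -/
def lift (F : Fn → Fn) : ℕ → Fn → Fn
  | 0, f, s => F f s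
  | _ + 1, _, [] => 0
  | i + 1, f, a :: s => lift F i (fun t => f (a :: t)) s

def B0 : Fn → Fn := fun f s => f (true :: true :: s) + f (false :: false :: s)

def D0 : Fn → Fn
  | f, x :: y :: s => if x = y then f s else 0
  | _, _ => 0

def X0 : Fn → Fn
  | f, x :: y :: s => f (y :: x :: s)
  | _, _ => 0

def TP : Piece → Fn → Fn
  | birth i => lift B0 i
  | death i => lift D0 i
  | pos i => lift X0 i
  | neg i => lift X0 i

def TW : Word → Fn → Fn
  | [], f => f
  | p :: w, f => TP p (TW w f)

theorem TW_append (x y : Word) (f : Fn) : TW (x ++ y) f = TW x (TW y f) := by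
  induction x with
  | nil => rfl
  | cons p x ih => rw [List.cons_append, TW, TW, ih]

/-- additive operators -/
structure Addi (F : Fn → Fn) : Prop where
  add : ∀ f g s, F (fun t => f t + g t) s = F f s + F g s
  zero : ∀ s, F (fun _ => 0) s = 0

theorem addi_B0 : Addi B0 := ⟨fun f g s => by simp only [B0]; omega, fun s => rfl⟩

theorem addi_D0 : Addi D0 := by
  constructor
  · intro f g s
    match s with
    | [] => rfl
    | [_] => rfl
    | x :: y :: s =>
      simp only [D0]
      split <;> rfl
  · intro s
    match s with
    | [] => rfl
    | [_] => rfl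
    | x :: y :: s =>
      simp only [D0]
      split <;> rfl

theorem addi_X0 : Addi X0 := by
  constructor
  · intro f g s
    match s with
    | [] => rfl
    | [_] => rfl
    | x :: y :: s => rfl
  · intro s
    match s with
    | [] => rfl
    | [_] => rfl
    | x :: y :: s => rfl

theorem Addi.lift {F : Fn → Fn} (h : Addi F) (i : ℕ) : Addi (lift F i) := by
  induction i with
  | zero => exact h
  | succ i ih =>
    constructor
    · intro f g s
      match s with
      | [] => rfl
      | a :: s => exact ih.add _ _ s
    · intro s
      match s with
      | [] => rfl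
      | a :: s => exact ih.zero s

theorem exB {F : Fn → Fn} (h : Addi F) (i j : ℕ) (hij : i ≤ j) (f : Fn) (s : List Bool) :
    lift B0 i (lift F (j + 2) f) s = lift F j (lift B0 i f) s := by
  induction i generalizing j f s with
  | zero => exact ((h.lift j).add _ _ s).symm
  | succ i ih =>
    obtain ⟨j, rfl⟩ : ∃ j', j = j' + 1 := ⟨j - 1, by omega⟩
    match s with
    | [] => rfl
    | a :: s => exact ih j (by omega) (fun u => f (a :: u)) s

theorem exD {F : Fn → Fn} (h : Addi F) (i j : ℕ) (hij : i ≤ j) (f : Fn) (s : List Bool) :
    lift D0 i (lift F j f) s = lift F (j + 2) (lift D0 i f) s := by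
  induction i generalizing j f s with
  | zero =>
    match s with
    | [] => rfl
    | [_] => rfl
    | x :: y :: s =>
      by_cases hxy : x = y
      · subst hxy
        have e : ∀ (g : Fn) (t : List Bool), D0 g (x :: x :: t) = g t := by
          intro g t
          simp [D0]
        show D0 (lift F j f) (x :: x :: s) = lift F j (fun t => D0 f (x :: x :: t)) s
        rw [e]
        congr 1
        funext t
        rw [e]
      · have e : ∀ (g : Fn) (t : List Bool), D0 g (x :: y :: t) = 0 := by
          intro g t
          simp [D0, hxy]
        show D0 (lift F j f) (x :: y :: s) = lift F j (fun t => D0 f (x :: y :: t)) s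
        rw [e]
        have : (fun t => D0 f (x :: y :: t)) = fun _ => 0 := by
          funext t
          rw [e]
        rw [this, (h.lift j).zero]
  | succ i ih =>
    obtain ⟨j, rfl⟩ : ∃ j', j = j' + 1 := ⟨j - 1, by omega⟩
    match s with
    | [] => rfl
    | a :: s => exact ih j (by omega) (fun u => f (a :: u)) s

theorem exX {F : Fn → Fn} (i j : ℕ) (hij : i ≤ j) (f : Fn) (s : List Bool) :
    lift X0 i (lift F (j + 2) f) s = lift F (j + 2) (lift X0 i f) s := by
  induction i generalizing j f s with
  | zero =>
    match s with
    | [] => rfl
    | [_] => rfl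
    | x :: y :: s => rfl
  | succ i ih =>
    obtain ⟨j, rfl⟩ : ∃ j', j = j' + 1 := ⟨j - 1, by omega⟩
    match s with
    | [] => rfl
    | a :: s => exact ih j (by omega) (fun u => f (a :: u)) s

theorem TP_eq (q : Piece) : ∃ F : Fn → Fn, Addi F ∧ ∀ j, TP (q.moved j) = lift F j := by
  cases q with
  | birth i => exact ⟨B0, addi_B0, fun j => rfl⟩
  | death i => exact ⟨D0, addi_D0, fun j => rfl⟩
  | pos i => exact ⟨X0, addi_X0, fun j => rfl⟩
  | neg i => exact ⟨X0, addi_X0, fun j => rfl⟩

theorem moved_index (q : Piece) : q.moved q.index = q := by
  cases q <;> rfl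

theorem T_exchange (p q : Piece) (h : p.index + p.ins ≤ q.index) (f : Fn) (s : List Bool) :
    TP p (TP (q.moved (q.index + p.outs - p.ins)) f) s = TP q (TP p f) s := by
  obtain ⟨F, hF, hq⟩ := TP_eq q
  have e : TP q = lift F q.index := by rw [← hq, moved_index]
  rw [hq, e]
  cases p with
  | birth i => exact exB hF i _ h f s
  | death i =>
    have h' : i + 2 ≤ q.index := h
    have := exD hF i (q.index - 2) (by omega) f s
    rwa [Nat.sub_add_cancel (by omega)] at this
  | pos i =>
    have h' : i + 2 ≤ q.index := h
    have := exX (F := F) i (q.index - 2) (by omega) f s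
    rwa [Nat.sub_add_cancel (by omega)] at this
  | neg i =>
    have h' : i + 2 ≤ q.index := h
    have := exX (F := F) i (q.index - 2) (by omega) f s
    rwa [Nat.sub_add_cancel (by omega)] at this

theorem T_zigzag₁ (i : ℕ) (f : Fn) (s : List Bool) (h : i + 1 ≤ s.length) :
    lift B0 i (lift D0 (i + 1) f) s = f s := by
  induction i generalizing f s with
  | zero =>
    match s with
    | [] => simp at h
    | a :: s => cases a <;> simp [lift, B0, D0]
  | succ i ih =>
    match s with
    | [] => simp at h
    | a :: s =>
      have h' : i + 1 ≤ s.length := by simpa using h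
      exact ih (fun u => f (a :: u)) s h'

theorem T_zigzag₂ (i : ℕ) (f : Fn) (s : List Bool) (h : i + 1 ≤ s.length) :
    lift B0 (i + 1) (lift D0 i f) s = f s := by
  induction i generalizing f s with
  | zero =>
    match s with
    | [] => simp at h
    | a :: s => cases a <;> simp [lift, B0, D0]
  | succ i ih =>
    match s with
    | [] => simp at h
    | a :: s =>
      have h' : i + 1 ≤ s.length := by simpa using h
      exact ih (fun u => f (a :: u)) s h'

theorem T_slideB (i : ℕ) (f : Fn) (s : List Bool) :
    lift B0 i (lift X0 (i + 1) f) s = lift B0 (i + 1) (lift X0 i f) s := by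
  induction i generalizing f s with
  | zero =>
    match s with
    | [] => rfl
    | a :: s => rfl
  | succ i ih =>
    match s with
    | [] => rfl
    | a :: s => exact ih (fun u => f (a :: u)) s

theorem T_slideD (i : ℕ) (f : Fn) (s : List Bool) :
    lift X0 (i + 1) (lift D0 i f) s = lift X0 i (lift D0 (i + 1) f) s := by
  induction i generalizing f s with
  | zero =>
    match s with
    | [] => rfl
    | [_] => rfl
    | [_, _] => rfl
    | a :: b :: c :: s => rfl
  | succ i ih =>
    match s with
    | [] => rfl
    | a :: s => exact ih (fun u => f (a :: u)) s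

theorem T_second (i : ℕ) (f : Fn) (s : List Bool) (h : i + 2 ≤ s.length) :
    lift X0 i (lift X0 i f) s = f s := by
  induction i generalizing f s with
  | zero =>
    match s with
    | [] => simp at h
    | [_] => simp at h
    | a :: b :: s => rfl
  | succ i ih =>
    match s with
    | [] => simp at h
    | a :: s =>
      have h' : i + 2 ≤ s.length := by simpa using h
      exact ih (fun u => f (a :: u)) s h'

theorem T_third (i : ℕ) (f : Fn) (s : List Bool) :
    lift X0 i (lift X0 (i + 1) (lift X0 i f)) s =
      lift X0 (i + 1) (lift X0 i (lift X0 (i + 1) f)) s := by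
  induction i generalizing f s with
  | zero =>
    match s with
    | [] => rfl
    | [_] => rfl
    | [_, _] => rfl
    | a :: b :: c :: s => rfl
  | succ i ih =>
    match s with
    | [] => rfl
    | a :: s => exact ih (fun u => f (a :: u)) s

theorem T_curlB (i : ℕ) (f : Fn) (s : List Bool) :
    lift B0 i (lift X0 i f) s = lift B0 i f s := by
  induction i generalizing f s with
  | zero => rfl
  | succ i ih =>
    match s with
    | [] => rfl
    | a :: s => exact ih (fun u => f (a :: u)) s

theorem T_curlD (i : ℕ) (f : Fn) (s : List Bool) :
    lift X0 i (lift D0 i f) s = lift D0 i f s := by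
  induction i generalizing f s with
  | zero =>
    match s with
    | [] => rfl
    | [_] => rfl
    | a :: b :: s => cases a <;> cases b <;> simp [lift, X0, D0]
  | succ i ih =>
    match s with
    | [] => rfl
    | a :: s => exact ih (fun u => f (a :: u)) s

theorem T_move {l r : Word} (h : LocalMove l r ∨ FirstMove l r) {n m : ℕ}
    (hl : width l n = some m) (f : Fn) (s : List Bool) (hs : s.length = n) :
    TW l f s = TW r f s := by
  subst hs
  rcases h with h | h
  · cases h with
    | exchange p q h => exact T_exchange p q h f s
    | zigzag₁ i =>
      refine T_zigzag₁ i f s ?_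
      simp only [width, Piece.width] at hl
      split at hl <;> simp_all
      omega
    | zigzag₂ i =>
      refine T_zigzag₂ i f s ?_
      simp only [width, Piece.width] at hl
      split at hl <;> simp_all
    | slideBirth₁ i => exact T_slideB i f s
    | slideBirth₂ i => exact T_slideB i f s
    | slideDeath₁ i => exact T_slideD i f s
    | slideDeath₂ i => exact T_slideD i f s
    | second₁ i =>
      refine T_second i f s ?_
      simp only [width, Piece.width] at hl
      split at hl <;> simp_all
    | second₂ i =>
      refine T_second i f s ?_
      simp only [width, Piece.width] at hl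
      split at hl <;> simp_all
    | third i => exact T_third i f s
  · cases h with
    | birthPos i => exact T_curlB i f s
    | birthNeg i => exact T_curlB i f s
    | deathPos i => exact T_curlD i f s
    | deathNeg i => exact T_curlD i f s

/-! ### Invariance -/

theorem lift_congr {F : Fn → Fn} {u v : ℕ}
    (hF : ∀ (f g : Fn) (s : List Bool), u ≤ s.length →
      (∀ t : List Bool, t.length + u = s.length + v → f t = g t) → F f s = F g s)
    (i : ℕ) (f g : Fn) (s : List Bool) (hs : i + u ≤ s.length)
    (h : ∀ t : List Bool, t.length + u = s.length + v → f t = g t) : lift F i f s = lift F i g s := by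
  induction i generalizing f g s with
  | zero => exact hF f g s (by omega) h
  | succ i ih =>
    match s with
    | [] => rfl
    | a :: s =>
      have hs' : i + u ≤ s.length := by
        have : (a :: s).length = s.length + 1 := rfl
        omega
      refine ih (fun t => f (a :: t)) (fun t => g (a :: t)) s hs' fun t ht => h (a :: t) ?_
      have e1 : (a :: s).length = s.length + 1 := rfl
      have e2 : (a :: t).length = t.length + 1 := rfl
      omega

theorem B0_congr (f g : Fn) (s : List Bool) (_ : 0 ≤ s.length)
    (h : ∀ t : List Bool, t.length + 0 = s.length + 2 → f t = g t) : B0 f s = B0 g s := by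
  simp only [B0]
  rw [h _ rfl, h _ rfl]

theorem D0_congr (f g : Fn) (s : List Bool) (hs : 2 ≤ s.length)
    (h : ∀ t : List Bool, t.length + 2 = s.length + 0 → f t = g t) : D0 f s = D0 g s := by
  match s with
  | [] => rfl
  | [_] => rfl
  | x :: y :: s =>
    simp only [D0]
    rw [h s rfl]

theorem X0_congr (f g : Fn) (s : List Bool) (hs : 2 ≤ s.length)
    (h : ∀ t : List Bool, t.length + 2 = s.length + 2 → f t = g t) : X0 f s = X0 g s := by
  match s with
  | [] => rfl
  | [_] => rfl
  | x :: y :: s =>
    exact h (y :: x :: s) rfl

theorem TP_congr (p : Piece) {n m : ℕ} (hp : p.width n = some m) (f g : Fn)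
    (h : ∀ t : List Bool, t.length = m → f t = g t) (s : List Bool) (hs : s.length = n) :
    TP p f s = TP p g s := by
  subst hs
  cases p with
  | birth i =>
    simp only [Piece.width] at hp
    split at hp
    · rename_i hi
      rw [Option.some.injEq] at hp
      exact lift_congr B0_congr i f g s (by omega) fun t ht => h t (by omega)
    · simp at hp
  | death i =>
    simp only [Piece.width] at hp
    split at hp
    · rename_i hi
      rw [Option.some.injEq] at hp
      exact lift_congr D0_congr i f g s (by omega) fun t ht => h t (by omega)
    · simp at hp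
  | pos i =>
    simp only [Piece.width] at hp
    split at hp
    · rename_i hi
      rw [Option.some.injEq] at hp
      exact lift_congr X0_congr i f g s (by omega) fun t ht => h t (by omega)
    · simp at hp
  | neg i =>
    simp only [Piece.width] at hp
    split at hp
    · rename_i hi
      rw [Option.some.injEq] at hp
      exact lift_congr X0_congr i f g s (by omega) fun t ht => h t (by omega)
    · simp at hp

theorem TW_congr (w : Word) {n m : ℕ} (hw : width w n = some m) (f g : Fn)
    (h : ∀ t : List Bool, t.length = m → f t = g t) (s : List Bool) (hs : s.length = n) :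
    TW w f s = TW w g s := by
  induction w generalizing n s with
  | nil =>
    simp only [width, Option.some.injEq] at hw
    exact h s (by omega)
  | cons p w ih =>
    rw [width, Option.bind_eq_some_iff] at hw
    obtain ⟨k, h1, h2⟩ := hw
    exact TP_congr p h1 _ _ (fun t ht => ih h2 t ht) s hs

theorem obelow_width (p : OPiece) (d e : List Bool) (h : p.below d = some e) :
    p.forget.width d.length = some e.length := by
  cases p with
  | birth i b =>
    simp only [OPiece.below] at h
    split at h
    · rename_i hi
      rw [Option.some.injEq] at h
      subst h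
      simp only [OPiece.forget, Piece.width, if_pos hi, Option.some.injEq, List.length_append,
        List.length_take, List.length_drop, List.length_cons, List.length_nil]
      omega
    · simp at h
  | death i =>
    simp only [OPiece.below] at h
    split at h
    · rename_i x y r hr
      have hl := congrArg List.length hr
      simp only [List.length_drop, List.length_cons] at hl
      split at h
      · rw [Option.some.injEq] at h
        subst h
        have hi : i + 2 ≤ d.length := by omega
        simp only [OPiece.forget, Piece.width, if_pos hi, Option.some.injEq, List.length_append,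
          List.length_take]
        omega
      · simp at h
    · simp at h
  | pos i =>
    simp only [OPiece.below] at h
    split at h
    · rename_i x y r hr
      have hl := congrArg List.length hr
      simp only [List.length_drop, List.length_cons] at hl
      rw [Option.some.injEq] at h
      subst h
      have hi : i + 2 ≤ d.length := by omega
      simp only [OPiece.forget, Piece.width, if_pos hi, Option.some.injEq, List.length_append,
        List.length_take, List.length_cons, List.length_nil]
      omega
    · simp at h
  | neg i =>
    simp only [OPiece.below] at h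
    split at h
    · rename_i x y r hr
      have hl := congrArg List.length hr
      simp only [List.length_drop, List.length_cons] at hl
      rw [Option.some.injEq] at h
      subst h
      have hi : i + 2 ≤ d.length := by omega
      simp only [OPiece.forget, Piece.width, if_pos hi, Option.some.injEq, List.length_append,
        List.length_take, List.length_cons, List.length_nil]
      omega
    · simp at h

theorem below_width (w : OWord) (d e : List Bool) (h : below w d = some e) :
    width (forget w) d.length = some e.length := by
  induction w generalizing d with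
  | nil =>
    simp only [below, Option.some.injEq] at h
    subst h
    rfl
  | cons p w ih =>
    rw [below, Option.bind_eq_some_iff] at h
    obtain ⟨k, h1, h2⟩ := h
    show (p.forget.width d.length).bind (width (forget w)) = _
    rw [obelow_width p d k h1]
    exact ih k h2

theorem forget_append (x y : OWord) : forget (x ++ y) = forget x ++ forget y := List.map_append

def dlt : Fn := fun s => if s = [] then 1 else 0

/-- the number of colourings of the components by two colours -/
def ncol (D : OWord) : ℕ := TW (forget D) dlt []

theorem ncol_step {D E : OWord} (h : OStep D E) : ncol D = ncol E := by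
  obtain ⟨x, l, r, y, d, e, hm, h1, h2, -, -⟩ := h
  rw [ncol, ncol, forget_append, forget_append, forget_append, forget_append, TW_append, TW_append,
    TW_append, TW_append]
  exact TW_congr (forget x) (below_width x [] d h1) _ _
    (fun t ht => T_move hm (below_width l d e h2) _ t ht) [] rfl

theorem ncol_iso {D E : OWord} (h : OIsotopic D E) : ncol D = ncol E := by
  induction h with
  | rel _ _ h => exact ncol_step h
  | refl _ => rfl
  | symm _ _ _ ih => exact ih.symm
  | trans _ _ _ _ _ ih1 ih2 => exact ih1.trans ih2

/-! ### Colourings of surfaces -/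

def ins : ℕ → Bool → List Bool → List Bool
  | 0, b, s => b :: s
  | _ + 1, _, [] => []
  | i + 1, b, a :: s => a :: ins i b s

def del : ℕ → List Bool → List Bool
  | _, [] => []
  | 0, _ :: s => s
  | i + 1, a :: s => a :: del i s

def dup : ℕ → List Bool → List Bool
  | _, [] => []
  | 0, a :: s => a :: a :: s
  | i + 1, a :: s => a :: dup i s

def swp0 : List Bool → List Bool
  | a :: b :: s => b :: a :: s
  | s => s

def swp : ℕ → List Bool → List Bool
  | 0, s => swp0 s
  | _ + 1, [] => []
  | i + 1, a :: s => a :: swp i s

def eq0 : List Bool → Bool
  | a :: b :: _ => a == b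
  | _ => true

def eqAt : ℕ → List Bool → Bool
  | 0, s => eq0 s
  | _ + 1, [] => true
  | i + 1, _ :: s => eqAt i s

def U : Band → Fn → Fn
  | .cap i, g, s => g (ins i true s) + g (ins i false s)
  | .cup i, g, s => g (del i s)
  | .split i, g, s => g (dup i s)
  | .merge i, g, s => if eqAt i s then g (del i s) else 0
  | .front i, g, s => g (swp i s)
  | .back i, g, s => g (swp i s)
  | .twistPos _, g, s => g s
  | .twistNeg _, g, s => g s

def UR : Strips → Fn
  | [] => dlt
  | b :: R => U b (UR R)

def dbl : List Bool → List Bool
  | [] => []
  | a :: s => a :: a :: dbl s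

theorem c_cap (i : ℕ) (f : Fn) (t : List Bool) (h : i ≤ t.length) :
    lift B0 (2 * i) f (dbl t) = f (dbl (ins i true t)) + f (dbl (ins i false t)) := by
  induction i generalizing f t with
  | zero => rfl
  | succ i ih =>
    match t with
    | [] => simp at h
    | a :: t => exact ih (fun u => f (a :: a :: u)) t (by simpa using h)

theorem c_cup (i : ℕ) (f : Fn) (t : List Bool) (h : i + 1 ≤ t.length) :
    lift D0 (2 * i) f (dbl t) = f (dbl (del i t)) := by
  induction i generalizing f t with
  | zero =>
    match t with
    | [] => simp at h
    | a :: t => simp [lift, dbl, D0, del]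
  | succ i ih =>
    match t with
    | [] => simp at h
    | a :: t => exact ih (fun u => f (a :: a :: u)) t (by simpa using h)

theorem c_split (i : ℕ) (f : Fn) (t : List Bool) (h : i + 1 ≤ t.length) :
    f (dbl (dup i t)) ≤ lift B0 (2 * i + 1) f (dbl t) := by
  induction i generalizing f t with
  | zero =>
    match t with
    | [] => simp at h
    | a :: t => cases a <;> simp [lift, dbl, B0, dup]
  | succ i ih =>
    match t with
    | [] => simp at h
    | a :: t => exact ih (fun u => f (a :: a :: u)) t (by simpa using h)

theorem c_merge (i : ℕ) (f : Fn) (t : List Bool) (h : i + 2 ≤ t.length) :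
    lift D0 (2 * i + 1) f (dbl t) = if eqAt i t then f (dbl (del i t)) else 0 := by
  induction i generalizing f t with
  | zero =>
    match t with
    | [] => simp at h
    | [_] => simp at h
    | a :: b :: t => cases a <;> cases b <;> simp [lift, dbl, D0, del, eqAt, eq0]
  | succ i ih =>
    match t with
    | [] => simp at h
    | a :: t => exact ih (fun u => f (a :: a :: u)) t (by simpa using h)

theorem c_cross (i : ℕ) (f : Fn) (t : List Bool) (h : i + 2 ≤ t.length) :
    lift X0 (2 * i + 1) (lift X0 (2 * i) (lift X0 (2 * i + 2) (lift X0 (2 * i + 1) f))) (dbl t) =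
      f (dbl (swp i t)) := by
  induction i generalizing f t with
  | zero =>
    match t with
    | [] => simp at h
    | [_] => simp at h
    | a :: b :: t => rfl
  | succ i ih =>
    match t with
    | [] => simp at h
    | a :: t => exact ih (fun u => f (a :: a :: u)) t (by simpa using h)

theorem c_twist (i : ℕ) (f : Fn) (t : List Bool) (h : i + 1 ≤ t.length) :
    lift X0 (2 * i) (lift X0 (2 * i) f) (dbl t) = f (dbl t) := by
  induction i generalizing f t with
  | zero =>
    match t with
    | [] => simp at h
    | a :: t => rfl
  | succ i ih =>
    match t with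
    | [] => simp at h
    | a :: t => exact ih (fun u => f (a :: a :: u)) t (by simpa using h)

theorem strips_spec (b : Band) (n m : ℕ) (h : b.strips n = some m) :
    match b with
    | .cap i => i ≤ n ∧ m = n + 1
    | .cup i => i + 1 ≤ n ∧ n = m + 1
    | .split i => i + 1 ≤ n ∧ m = n + 1
    | .merge i => i + 2 ≤ n ∧ n = m + 1
    | .front i => i + 2 ≤ n ∧ m = n
    | .back i => i + 2 ≤ n ∧ m = n
    | .twistPos i => i + 1 ≤ n ∧ m = n
    | .twistNeg i => i + 1 ≤ n ∧ m = n := by
  cases b <;> simp only [Band.strips] at h <;> split at h <;>
    first
    | (rw [Option.some.injEq] at h; dsimp only; omega)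
    | simp at h

theorem length_ins (i : ℕ) (b : Bool) (s : List Bool) (h : i ≤ s.length) :
    (ins i b s).length = s.length + 1 := by
  induction i generalizing s with
  | zero => rfl
  | succ i ih =>
    match s with
    | [] => simp at h
    | a :: s => exact congrArg (· + 1) (ih s (by simpa using h))

theorem length_del (i : ℕ) (s : List Bool) (h : i + 1 ≤ s.length) :
    (del i s).length + 1 = s.length := by
  induction i generalizing s with
  | zero =>
    match s with
    | [] => simp at h
    | a :: s => rfl
  | succ i ih =>
    match s with
    | [] => simp at h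
    | a :: s => exact congrArg (· + 1) (ih s (by simpa using h))

theorem length_dup (i : ℕ) (s : List Bool) (h : i + 1 ≤ s.length) :
    (dup i s).length = s.length + 1 := by
  induction i generalizing s with
  | zero =>
    match s with
    | [] => simp at h
    | a :: s => rfl
  | succ i ih =>
    match s with
    | [] => simp at h
    | a :: s => exact congrArg (· + 1) (ih s (by simpa using h))

theorem length_swp (i : ℕ) (s : List Bool) (h : i + 2 ≤ s.length) :
    (swp i s).length = s.length := by
  induction i generalizing s with
  | zero =>
    match s with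
    | [] => simp at h
    | [_] => simp at h
    | a :: b :: s => rfl
  | succ i ih =>
    match s with
    | [] => simp at h
    | a :: s => exact congrArg (· + 1) (ih s (by simpa using h))

theorem U_le (b : Band) {n m : ℕ} (hb : b.strips n = some m) (g f : Fn)
    (h : ∀ t : List Bool, t.length = m → g t ≤ f (dbl t)) (t : List Bool) (ht : t.length = n) :
    U b g t ≤ TW (forget b.boundary) f (dbl t) := by
  have hs := strips_spec b n m hb
  cases b with
  | cap i =>
    show g _ + g _ ≤ lift B0 (2 * i) f (dbl t)
    rw [c_cap i f t (by omega)]
    exact Nat.add_le_add (h _ (by rw [length_ins] <;> omega)) (h _ (by rw [length_ins] <;> omega))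
  | cup i =>
    show g _ ≤ lift D0 (2 * i) f (dbl t)
    rw [c_cup i f t (by omega)]
    have := length_del i t (by omega)
    exact h _ (by omega)
  | split i => exact (h _ (by rw [length_dup] <;> omega)).trans (c_split i f t (by omega))
  | merge i =>
    show (if eqAt i t then g (del i t) else 0) ≤ lift D0 (2 * i + 1) f (dbl t)
    rw [c_merge i f t (by omega)]
    have := length_del i t (by omega)
    split
    · exact h _ (by omega)
    · exact le_rfl
  | front i =>
    show g (swp i t) ≤
      lift X0 (2 * i + 1) (lift X0 (2 * i) (lift X0 (2 * i + 2) (lift X0 (2 * i + 1) f))) (dbl t)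
    rw [c_cross i f t (by omega)]
    exact h _ (by rw [length_swp] <;> omega)
  | back i =>
    show g (swp i t) ≤
      lift X0 (2 * i + 1) (lift X0 (2 * i) (lift X0 (2 * i + 2) (lift X0 (2 * i + 1) f))) (dbl t)
    rw [c_cross i f t (by omega)]
    exact h _ (by rw [length_swp] <;> omega)
  | twistPos i =>
    show g t ≤ lift X0 (2 * i) (lift X0 (2 * i) f) (dbl t)
    rw [c_twist i f t (by omega)]
    exact h _ (by omega)
  | twistNeg i =>
    show g t ≤ lift X0 (2 * i) (lift X0 (2 * i) f) (dbl t)
    rw [c_twist i f t (by omega)]
    exact h _ (by omega)

theorem boundary_cons (b : Band) (R : Strips) : boundary (b :: R) = b.boundary ++ boundary R := rfl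

theorem UR_le (R : Strips) {n : ℕ} (hR : strips R n = some 0) (t : List Bool) (ht : t.length = n) :
    UR R t ≤ TW (forget (boundary R)) dlt (dbl t) := by
  induction R generalizing n t with
  | nil =>
    simp only [strips, Option.some.injEq] at hR
    subst hR
    have : t = [] := List.length_eq_zero_iff.1 ht
    subst this
    exact le_rfl
  | cons b R ih =>
    rw [strips, Option.bind_eq_some_iff] at hR
    obtain ⟨m, h1, h2⟩ := hR
    rw [boundary_cons, forget_append, TW_append]
    exact U_le b h1 _ _ (fun t ht => ih h2 t ht) t ht

/-! ### Counting -/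

/-- the sum over all lists of length `n` -/
def tot : ℕ → Fn → ℕ
  | 0, g => g []
  | n + 1, g => tot n (fun t => g (true :: t)) + tot n (fun t => g (false :: t))

theorem tot_congr {n : ℕ} {g h : Fn} (H : ∀ t : List Bool, t.length = n → g t = h t) :
    tot n g = tot n h := by
  induction n generalizing g h with
  | zero => exact H [] rfl
  | succ n ih =>
    show _ + _ = _ + _
    rw [ih fun t ht => H (true :: t) (congrArg (· + 1) ht),
      ih fun t ht => H (false :: t) (congrArg (· + 1) ht)]

theorem tot_add (n : ℕ) (g h : Fn) : tot n (fun t => g t + h t) = tot n g + tot n h := by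
  induction n generalizing g h with
  | zero => rfl
  | succ n ih =>
    show tot n _ + tot n _ = (tot n _ + tot n _) + (tot n _ + tot n _)
    rw [ih, ih]
    omega

theorem tot_zero (n : ℕ) : tot n (fun _ => 0) = 0 := by
  induction n with
  | zero => rfl
  | succ n ih =>
    show tot n _ + tot n _ = 0
    rw [ih]

theorem tot_ins (n i : ℕ) (h : i ≤ n) (g : Fn) :
    tot n (fun t => g (ins i true t) + g (ins i false t)) = tot (n + 1) g := by
  induction i generalizing n g with
  | zero => exact tot_add n _ _
  | succ i ih =>
    obtain ⟨n, rfl⟩ : ∃ n', n = n' + 1 := ⟨n - 1, by omega⟩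
    show tot n _ + tot n _ = tot (n + 1) _ + tot (n + 1) _
    rw [← ih n (by omega), ← ih n (by omega)]
    rfl

theorem tot_del (n i : ℕ) (h : i ≤ n) (g : Fn) :
    tot (n + 1) (fun t => g (del i t)) = 2 * tot n g := by
  induction i generalizing n g with
  | zero =>
    show tot n g + tot n g = _
    omega
  | succ i ih =>
    obtain ⟨n, rfl⟩ : ∃ n', n = n' + 1 := ⟨n - 1, by omega⟩
    show tot (n + 1) (fun t => g (true :: del i t)) + tot (n + 1) (fun t => g (false :: del i t)) =
      2 * (tot n _ + tot n _)
    rw [ih n (by omega) fun t => g (true :: t), ih n (by omega) fun t => g (false :: t)]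
    omega

theorem tot_dup (n i : ℕ) (h : i + 1 ≤ n) (g : Fn) :
    tot n (fun t => g (dup i t)) = tot (n + 1) (fun t => if eqAt i t then g t else 0) := by
  induction i generalizing n g with
  | zero =>
    obtain ⟨n, rfl⟩ : ∃ n', n = n' + 1 := ⟨n - 1, by omega⟩
    show tot n (fun t => g (true :: true :: t)) + tot n (fun t => g (false :: false :: t)) =
      (tot n (fun t => g (true :: true :: t)) + tot n (fun _ => 0)) +
      (tot n (fun _ => 0) + tot n (fun t => g (false :: false :: t)))
    rw [tot_zero]
    omega
  | succ i ih =>
    obtain ⟨n, rfl⟩ : ∃ n', n = n' + 1 := ⟨n - 1, by omega⟩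
    show tot n (fun t => g (true :: dup i t)) + tot n (fun t => g (false :: dup i t)) =
      tot (n + 1) _ + tot (n + 1) _
    rw [ih n (by omega) fun t => g (true :: t), ih n (by omega) fun t => g (false :: t)]
    rfl

theorem tot_merge (n i : ℕ) (h : i + 1 ≤ n) (g : Fn) :
    tot (n + 1) (fun t => if eqAt i t then g (del i t) else 0) = tot n g := by
  induction i generalizing n g with
  | zero =>
    obtain ⟨n, rfl⟩ : ∃ n', n = n' + 1 := ⟨n - 1, by omega⟩
    show (tot n (fun t => g (true :: t)) + tot n (fun _ => 0)) +
      (tot n (fun _ => 0) + tot n (fun t => g (false :: t))) =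
      tot n (fun t => g (true :: t)) + tot n (fun t => g (false :: t))
    rw [tot_zero]
    omega
  | succ i ih =>
    obtain ⟨n, rfl⟩ : ∃ n', n = n' + 1 := ⟨n - 1, by omega⟩
    show tot (n + 1) (fun t => if eqAt i t then g (true :: del i t) else 0) +
      tot (n + 1) (fun t => if eqAt i t then g (false :: del i t) else 0) = tot n _ + tot n _
    rw [ih n (by omega) fun t => g (true :: t), ih n (by omega) fun t => g (false :: t)]

theorem tot_swp (n i : ℕ) (h : i + 2 ≤ n) (g : Fn) : tot n (fun t => g (swp i t)) = tot n g := by
  induction i generalizing n g with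
  | zero =>
    obtain ⟨n, rfl⟩ : ∃ n', n = n' + 2 := ⟨n - 2, by omega⟩
    show (tot n (fun t => g (true :: true :: t)) + tot n (fun t => g (false :: true :: t))) +
      (tot n (fun t => g (true :: false :: t)) + tot n (fun t => g (false :: false :: t))) =
      (tot n (fun t => g (true :: true :: t)) + tot n (fun t => g (true :: false :: t))) +
      (tot n (fun t => g (false :: true :: t)) + tot n (fun t => g (false :: false :: t)))
    omega
  | succ i ih =>
    obtain ⟨n, rfl⟩ : ∃ n', n = n' + 1 := ⟨n - 1, by omega⟩
    show tot n (fun t => g (true :: swp i t)) + tot n (fun t => g (false :: swp i t)) =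
      tot n _ + tot n _
    rw [ih n (by omega) fun t => g (true :: t), ih n (by omega) fun t => g (false :: t)]

/-! ### Addition of colourings -/

def xo : List Bool → List Bool → List Bool
  | a :: s, b :: t => (a ^^ b) :: xo s t
  | _, _ => []

theorem length_xo (s t : List Bool) (h : s.length = t.length) : (xo s t).length = t.length := by
  induction s generalizing t with
  | nil =>
    have : t = [] := List.length_eq_zero_iff.1 h.symm
    subst this
    rfl
  | cons a s ih =>
    match t with
    | [] => simp at h
    | b :: t => exact congrArg (· + 1) (ih t (by simpa using h))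

theorem tot_xo (n : ℕ) (s : List Bool) (hs : s.length = n) (g : Fn) :
    tot n (fun t => g (xo s t)) = tot n g := by
  induction n generalizing s g with
  | zero =>
    have : s = [] := List.length_eq_zero_iff.1 hs
    subst this
    rfl
  | succ n ih =>
    match s with
    | [] => simp at hs
    | a :: s =>
      have hs' : s.length = n := by simpa using hs
      cases a
      · show tot n (fun t => g (true :: xo s t)) + tot n (fun t => g (false :: xo s t)) =
          tot n _ + tot n _
        rw [ih s hs' fun t => g (true :: t), ih s hs' fun t => g (false :: t)]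
      · show tot n (fun t => g (false :: xo s t)) + tot n (fun t => g (true :: xo s t)) =
          tot n _ + tot n _
        rw [ih s hs' fun t => g (true :: t), ih s hs' fun t => g (false :: t)]
        omega

theorem xo_ins (i : ℕ) (a b : Bool) (s t : List Bool) (h : s.length = t.length) :
    ins i (a ^^ b) (xo s t) = xo (ins i a s) (ins i b t) := by
  induction i generalizing s t with
  | zero => rfl
  | succ i ih =>
    match s, t with
    | [], [] => rfl
    | [], _ :: _ => simp at h
    | _ :: _, [] => simp at h
    | x :: s, y :: t => exact congrArg ((x ^^ y) :: ·) (ih s t (by simpa using h))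

theorem xo_del (i : ℕ) (s t : List Bool) (h : s.length = t.length) :
    del i (xo s t) = xo (del i s) (del i t) := by
  induction i generalizing s t with
  | zero =>
    match s, t with
    | [], [] => rfl
    | [], _ :: _ => simp at h
    | _ :: _, [] => simp at h
    | x :: s, y :: t => rfl
  | succ i ih =>
    match s, t with
    | [], [] => rfl
    | [], _ :: _ => simp at h
    | _ :: _, [] => simp at h
    | x :: s, y :: t => exact congrArg ((x ^^ y) :: ·) (ih s t (by simpa using h))

theorem xo_dup (i : ℕ) (s t : List Bool) (h : s.length = t.length) :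
    dup i (xo s t) = xo (dup i s) (dup i t) := by
  induction i generalizing s t with
  | zero =>
    match s, t with
    | [], [] => rfl
    | [], _ :: _ => simp at h
    | _ :: _, [] => simp at h
    | x :: s, y :: t => rfl
  | succ i ih =>
    match s, t with
    | [], [] => rfl
    | [], _ :: _ => simp at h
    | _ :: _, [] => simp at h
    | x :: s, y :: t => exact congrArg ((x ^^ y) :: ·) (ih s t (by simpa using h))

theorem xo_swp (i : ℕ) (s t : List Bool) (h : s.length = t.length) :
    swp i (xo s t) = xo (swp i s) (swp i t) := by
  induction i generalizing s t with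
  | zero =>
    match s, t with
    | [], [] => rfl
    | [], _ :: _ => simp at h
    | _ :: _, [] => simp at h
    | [x], [y] => rfl
    | [x], _ :: _ :: _ => simp at h
    | _ :: _ :: _, [y] => simp at h
    | x :: x' :: s, y :: y' :: t => rfl
  | succ i ih =>
    match s, t with
    | [], [] => rfl
    | [], _ :: _ => simp at h
    | _ :: _, [] => simp at h
    | x :: s, y :: t => exact congrArg ((x ^^ y) :: ·) (ih s t (by simpa using h))

theorem xo_eqAt (i : ℕ) (s t : List Bool) (h : s.length = t.length) (hi : i + 2 ≤ s.length) :
    eqAt i (xo s t) = (eqAt i s == eqAt i t) := by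
  induction i generalizing s t with
  | zero =>
    match s, t with
    | [], _ => simp at hi
    | [_], _ => simp at hi
    | _ :: _ :: _, [] => simp at h
    | _ :: _ :: _, [_] => simp at h
    | x :: x' :: s, y :: y' :: t =>
      cases x <;> cases x' <;> cases y <;> cases y' <;> rfl
  | succ i ih =>
    match s, t with
    | [], _ => simp at hi
    | _ :: _, [] => simp at h
    | x :: s, y :: t => exact ih s t (by simpa using h) (by simpa using hi)

/-- `g` is a multiple of the indicator function of a subgroup -/
def Sub (n : ℕ) (g : Fn) : Prop :=
  ∀ s : List Bool, s.length = n → g s ≠ 0 → ∀ t : List Bool, t.length = n → g (xo s t) = g t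

theorem half (n i : ℕ) (hi : i + 2 ≤ n) (g : Fn) (hg : Sub n g) :
    tot n g ≤ 2 * tot n (fun t => if eqAt i t then g t else 0) := by
  have h1 : tot n g = tot n (fun t => if eqAt i t then g t else 0) +
      tot n (fun t => if eqAt i t then 0 else g t) := by
    rw [← tot_add]
    refine tot_congr fun t _ => ?_
    split <;> omega
  by_cases hs : ∃ s : List Bool, s.length = n ∧ g s ≠ 0 ∧ eqAt i s = false
  · obtain ⟨s, h2, h3, h4⟩ := hs
    have h5 : tot n (fun t => if eqAt i t then 0 else g t) =
        tot n (fun t => if eqAt i t then g t else 0) := by
      rw [← tot_xo n s h2]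
      refine tot_congr fun t ht => ?_
      rw [xo_eqAt i s t (h2.trans ht.symm) (by omega), h4, hg s h2 h3 t ht]
      cases eqAt i t <;> simp
    omega
  · push Not at hs
    have h5 : tot n (fun t => if eqAt i t then 0 else g t) = 0 := by
      refine (tot_congr fun t ht => ?_).trans (tot_zero n)
      split
      · rfl
      · rename_i h6
        by_contra h7
        exact hs t ht h7 (by simpa using h6)
    omega

theorem Sub_U (b : Band) {n m : ℕ} (hb : b.strips n = some m) (g : Fn) (hg : Sub m g) :
    Sub n (U b g) := by
  have hs := strips_spec b n m hb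
  intro s h1 h2 t h3
  have h4 : s.length = t.length := h1.trans h3.symm
  cases b with
  | cap i =>
    have key : ∀ a c : Bool, g (ins i a s) ≠ 0 → g (ins i (a ^^ c) (xo s t)) = g (ins i c t) := by
      intro a c ha
      rw [xo_ins i a c s t h4]
      exact hg _ (by rw [length_ins] <;> omega) ha _ (by rw [length_ins] <;> omega)
    have h5 : g (ins i true s) + g (ins i false s) ≠ 0 := h2
    show g (ins i true (xo s t)) + g (ins i false (xo s t)) = g (ins i true t) + g (ins i false t)
    rcases Nat.eq_zero_or_pos (g (ins i true s)) with h6 | h6
    · have h7 : g (ins i false s) ≠ 0 := by omega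
      have e1 := key false true h7
      have e2 := key false false h7
      simp only [Bool.false_xor] at e1 e2
      rw [e1, e2]
    · have e1 := key true true (by omega)
      have e2 := key true false (by omega)
      simp only [Bool.true_xor, Bool.not_true, Bool.not_false] at e1 e2
      rw [e1, e2, add_comm]
  | cup i =>
    show g (del i (xo s t)) = g (del i t)
    have e1 := length_del i s (by omega)
    have e2 := length_del i t (by omega)
    rw [xo_del i s t h4]
    exact hg _ (by omega) h2 _ (by omega)
  | split i =>
    show g (dup i (xo s t)) = g (dup i t)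
    rw [xo_dup i s t h4]
    exact hg _ (by rw [length_dup] <;> omega) h2 _ (by rw [length_dup] <;> omega)
  | merge i =>
    have h5 : (if eqAt i s then g (del i s) else 0) ≠ 0 := h2
    show (if eqAt i (xo s t) then g (del i (xo s t)) else 0) = if eqAt i t then g (del i t) else 0
    have e1 := length_del i s (by omega)
    have e2 := length_del i t (by omega)
    by_cases h6 : eqAt i s = true
    · rw [if_pos h6] at h5
      rw [xo_eqAt i s t h4 (by omega), h6, Bool.true_beq, xo_del i s t h4,
        hg _ (by omega) h5 _ (by omega)]
    · rw [if_neg h6] at h5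
      exact absurd rfl h5
  | front i =>
    show g (swp i (xo s t)) = g (swp i t)
    rw [xo_swp i s t h4]
    exact hg _ (by rw [length_swp] <;> omega) h2 _ (by rw [length_swp] <;> omega)
  | back i =>
    show g (swp i (xo s t)) = g (swp i t)
    rw [xo_swp i s t h4]
    exact hg _ (by rw [length_swp] <;> omega) h2 _ (by rw [length_swp] <;> omega)
  | twistPos i => exact hg s (by omega) h2 t (by omega)
  | twistNeg i => exact hg s (by omega) h2 t (by omega)

theorem Sub_UR (R : Strips) {n : ℕ} (hR : strips R n = some 0) : Sub n (UR R) := by
  induction R generalizing n with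
  | nil =>
    simp only [strips, Option.some.injEq] at hR
    subst hR
    intro s h1 h2 t h3
    have e1 : s = [] := List.length_eq_zero_iff.1 h1
    have e2 : t = [] := List.length_eq_zero_iff.1 h3
    subst e1
    subst e2
    rfl
  | cons b R ih =>
    rw [strips, Option.bind_eq_some_iff] at hR
    obtain ⟨m, h1, h2⟩ := hR
    exact Sub_U b h1 _ (ih h2)

/-- numbers of the pieces `cap` and `merge` -/
def ncap : Strips → ℕ
  | [] => 0
  | .cap _ :: R => ncap R + 1
  | _ :: R => ncap R

def nmerge : Strips → ℕ
  | [] => 0
  | .merge _ :: R => nmerge R + 1
  | _ :: R => nmerge R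

theorem euler_eq (R : Strips) : euler R = ncap R - nmerge R := by
  induction R with
  | nil => rfl
  | cons b R ih =>
    have e : euler (b :: R) = b.euler + euler R := by simp [euler]
    rw [e, ih]
    cases b <;> simp only [Band.euler, ncap, nmerge] <;> push_cast <;> ring

theorem count (R : Strips) {n : ℕ} (hR : strips R n = some 0) :
    2 ^ (n + ncap R) ≤ 2 ^ nmerge R * tot n (UR R) := by
  induction R generalizing n with
  | nil =>
    simp only [strips, Option.some.injEq] at hR
    subst hR
    exact le_rfl
  | cons b R ih =>
    rw [strips, Option.bind_eq_some_iff] at hR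
    obtain ⟨m, h1, h2⟩ := hR
    have h3 := ih h2
    have h4 := Sub_UR R h2
    have hs := strips_spec b n m h1
    cases b with
    | cap i =>
      obtain ⟨hi, rfl⟩ := hs
      have e : tot n (UR (Band.cap i :: R)) = tot (n + 1) (UR R) := tot_ins n i hi _
      rw [e]
      show 2 ^ (n + (ncap R + 1)) ≤ _
      rwa [show n + (ncap R + 1) = n + 1 + ncap R by omega]
    | cup i =>
      obtain ⟨hi, rfl⟩ := hs
      have e : tot (m + 1) (UR (Band.cup i :: R)) = 2 * tot m (UR R) := tot_del m i (by omega) _
      rw [e]
      show 2 ^ (m + 1 + ncap R) ≤ 2 ^ nmerge R * (2 * tot m (UR R))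
      have : 2 ^ (m + 1 + ncap R) = 2 * 2 ^ (m + ncap R) := by rw [← pow_succ']; congr 1; omega
      rw [this, Nat.mul_left_comm]
      exact Nat.mul_le_mul_left 2 h3
    | split i =>
      obtain ⟨hi, rfl⟩ := hs
      have e : tot n (UR (Band.split i :: R)) =
        tot (n + 1) (fun t => if eqAt i t then UR R t else 0) := tot_dup n i hi _
      have h5 := half (n + 1) i (by omega) _ h4
      rw [← e] at h5
      show 2 ^ (n + ncap R) ≤ 2 ^ nmerge R * _
      have : 2 ^ (n + 1 + ncap R) = 2 * 2 ^ (n + ncap R) := by rw [← pow_succ']; congr 1; omega
      have h6 := Nat.mul_le_mul_left (2 ^ nmerge R) h5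
      rw [Nat.mul_left_comm] at h6
      omega
    | merge i =>
      obtain ⟨hi, rfl⟩ := hs
      have e : tot (m + 1) (UR (Band.merge i :: R)) = tot m (UR R) := tot_merge m i (by omega) _
      rw [e]
      show 2 ^ (m + 1 + ncap R) ≤ 2 ^ (nmerge R + 1) * _
      have : 2 ^ (m + 1 + ncap R) = 2 * 2 ^ (m + ncap R) := by rw [← pow_succ']; congr 1; omega
      rw [this, pow_succ', Nat.mul_assoc]
      exact Nat.mul_le_mul_left 2 h3
    | front i =>
      obtain ⟨hi, rfl⟩ := hs
      have e : tot m (UR (Band.front i :: R)) = tot m (UR R) := tot_swp m i hi _
      rw [e]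
      exact h3
    | back i =>
      obtain ⟨hi, rfl⟩ := hs
      have e : tot m (UR (Band.back i :: R)) = tot m (UR R) := tot_swp m i hi _
      rw [e]
      exact h3
    | twistPos i =>
      obtain ⟨hi, rfl⟩ := hs
      exact h3
    | twistNeg i =>
      obtain ⟨hi, rfl⟩ := hs
      exact h3

theorem euler_le (R : Strips) (hR : IsSurface R) : euler R ≤ ncol (boundary R) := by
  have h1 := count R hR
  have h2 := UR_le R hR [] rfl
  have h3 : tot 0 (UR R) = UR R [] := rfl
  rw [h3, Nat.zero_add] at h1
  have h4 : UR R [] ≤ ncol (boundary R) := h2
  rw [euler_eq]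
  by_contra h5
  have h6 : ncol (boundary R) + nmerge R + 1 ≤ ncap R := by omega
  have h7 : 2 ^ ncap R ≤ 2 ^ nmerge R * ncol (boundary R) :=
    h1.trans (Nat.mul_le_mul_left _ h4)
  have h8 : 2 ^ (ncol (boundary R) + nmerge R) ≤ 2 ^ ncap R :=
    Nat.pow_le_pow_right (by norm_num) (by omega)
  have h9 : 2 ^ nmerge R * 2 ^ ncol (boundary R) ≤ 2 ^ nmerge R * ncol (boundary R) := by
    rw [← pow_add, Nat.add_comm]
    exact h8.trans h7
  have h10 := Nat.le_of_mul_le_mul_left h9 (Nat.two_pow_pos _)
  exact absurd h10 (Nat.not_le.2 Nat.lt_two_pow_self)

/-- The Euler characteristics of the Seifert surfaces of a link are bounded above. -/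
theorem bddAbove_seifertEuler (D : OWord) : BddAbove (seifertEuler D) := by
  refine ⟨ncol D, ?_⟩
  rintro c ⟨R, hR, h1, rfl⟩
  rw [← ncol_iso h1]
  exact euler_le R hR

theorem isGreatest_chi {D : OWord} {c : ℤ} (h : c ∈ seifertEuler D) :
    IsGreatest (seifertEuler D) (chi D) :=
  ⟨Int.csSup_mem ⟨c, h⟩ (bddAbove_seifertEuler D), fun _ hc => le_csSup (bddAbove_seifertEuler D) hc⟩

end Pool.Agent.Helper127.Kauf
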