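import Mathlib

/-!
# Link diagrams, the Kauffman polynomial and Seifert surfaces

The part on unoriented sliced diagrams and the rules of the Kauffman polynomial is the one written
by helper454 for `MP_1130ce_gt`; oriented diagrams and Seifert surfaces are new.

A link diagram in the plane is cut by horizontal lines into elementary pieces, read from top to
bottom.  Between two pieces there are finitely many vertical strands, numbered `0, 1, 2, ...` from
left to right.
-/

set_option autoImplicit false

namespace Pool.Agent.Helper127.Kauf

open LaurentPolynomial

/-! ### Unoriented diagrams -/

/-- The elementary pieces of a sliced link diagram: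
* `birth i`: a local maximum, creating two new adjacent strands at the positions `i` and `i+1`;
* `death i`: a local minimum, joining the adjacent strands at the positions `i` and `i+1`;
* `pos i`: a crossing of the strands `i` and `i+1` in which the strand running from top right to
  bottom left passes over the other one (it is a positive crossing if both strands are oriented
  downwards);
* `neg i`: the opposite crossing, where the strand running from top left to bottom right passes
  over. -/
inductive Piece : Type
  | birth (i : ℕ) : Piece
  | death (i : ℕ) : Piece
  | pos (i : ℕ) : Piece
  | neg (i : ℕ) : Piece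
  deriving DecidableEq

/-- Diagrams (possibly with endpoints at the top and at the bottom): lists of pieces, read from top
to bottom. -/
abbrev Word : Type := List Piece

namespace Piece

/-- The number of strands a piece uses at its top. -/
def ins : Piece → ℕ
  | birth _ => 0
  | _ => 2

/-- The number of strands a piece has at its bottom. -/
def outs : Piece → ℕ
  | death _ => 0
  | _ => 2

/-- The position of a piece. -/
def index : Piece → ℕ
  | birth i => i
  | death i => i
  | pos i => i
  | neg i => i

/-- The same kind of piece, at position `j`. -/
def moved (j : ℕ) : Piece → Piece
  | birth _ => birth j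
  | death _ => death j
  | pos _ => pos j
  | neg _ => neg j

/-- The number of strands below the piece if there are `n` strands above it
(`none` if the piece does not fit). -/
def width : Piece → ℕ → Option ℕ
  | birth i, n => if i ≤ n then some (n + 2) else none
  | death i, n => if i + 2 ≤ n then some (n - 2) else none
  | pos i, n => if i + 2 ≤ n then some n else none
  | neg i, n => if i + 2 ≤ n then some n else none

end Piece

open Piece

/-- The number of strands below a diagram if there are `n` strands above it. -/
def width : Word → ℕ → Option ℕ
  | [], n => some n
  | p :: w, n => (p.width n).bind (width w)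

/-- Link diagrams: no endpoints. -/
def Closed (w : Word) : Prop := width w 0 = some 0

/-- The local moves which generate regular isotopy of sliced diagrams: planar isotopy (exchange of
the heights of two pieces which are next to each other, straightening of a zigzag, sliding a
crossing through a maximum or a minimum) and the Reidemeister moves II and III. -/
inductive LocalMove : Word → Word → Prop
  | exchange (p q : Piece) (h : p.index + p.ins ≤ q.index) :
      LocalMove [p, q.moved (q.index + p.outs - p.ins)] [q, p]
  | zigzag₁ (i : ℕ) : LocalMove [birth i, death (i + 1)] []
  | zigzag₂ (i : ℕ) : LocalMove [birth (i + 1), death i] []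
  | slideBirth₁ (i : ℕ) : LocalMove [birth i, pos (i + 1)] [birth (i + 1), neg i]
  | slideBirth₂ (i : ℕ) : LocalMove [birth i, neg (i + 1)] [birth (i + 1), pos i]
  | slideDeath₁ (i : ℕ) : LocalMove [pos (i + 1), death i] [neg i, death (i + 1)]
  | slideDeath₂ (i : ℕ) : LocalMove [neg (i + 1), death i] [pos i, death (i + 1)]
  | second₁ (i : ℕ) : LocalMove [pos i, neg i] []
  | second₂ (i : ℕ) : LocalMove [neg i, pos i] []
  | third (i : ℕ) : LocalMove [pos i, pos (i + 1), pos i] [pos (i + 1), pos i, pos (i + 1)]

/-- The first Reidemeister move (removal of a curl). -/
inductive FirstMove : Word → Word → Prop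
  | birthPos (i : ℕ) : FirstMove [birth i, pos i] [birth i]
  | birthNeg (i : ℕ) : FirstMove [birth i, neg i] [birth i]
  | deathPos (i : ℕ) : FirstMove [pos i, death i] [death i]
  | deathNeg (i : ℕ) : FirstMove [neg i, death i] [death i]

/-- Two link diagrams differ by one regular move. -/
inductive RegStep : Word → Word → Prop
  | mk (x l r y : Word) : LocalMove l r → Closed (x ++ l ++ y) → Closed (x ++ r ++ y) →
      RegStep (x ++ l ++ y) (x ++ r ++ y)

/-- Regular isotopy of link diagrams. -/
def RegIsotopic : Word → Word → Prop := Relation.EqvGen RegStep

/-- The crossingless circle. -/
def circle : Word := [birth 0, death 0]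

/-! ### The Kauffman polynomial -/

/-- The ring `ℤ[a^{±1}, z^{±1}]`, as Laurent polynomials in `a` over Laurent polynomials in `z`. -/
abbrev Raz : Type := LaurentPolynomial (LaurentPolynomial ℤ)

/-- The power `a^n`. -/
noncomputable def aPow (n : ℤ) : Raz := T n

/-- The variable `z`. -/
noncomputable def zVar : Raz := C (T 1)

/-- Kauffman's rules for a function `Λ` on link diagrams with values in a `ℤ[a^{±1}, z^{±1}]`-module:
it is invariant under regular isotopy, a positive curl multiplies it by `a`, a negative curl by
`a⁻¹`, and `Λ(D₊) + Λ(D₋) = z (Λ(D₀) + Λ(D_∞))`. -/
structure KauffmanRules {M : Type} [AddCommGroup M] [Module Raz M] (Λ : Word → M) : Prop where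
  regular : ∀ D E, RegIsotopic D E → Λ D = Λ E
  birthPos : ∀ x i y, Closed (x ++ [birth i] ++ y) →
    Λ (x ++ [birth i, pos i] ++ y) = aPow (-1) • Λ (x ++ [birth i] ++ y)
  birthNeg : ∀ x i y, Closed (x ++ [birth i] ++ y) →
    Λ (x ++ [birth i, neg i] ++ y) = aPow 1 • Λ (x ++ [birth i] ++ y)
  deathPos : ∀ x i y, Closed (x ++ [death i] ++ y) →
    Λ (x ++ [pos i, death i] ++ y) = aPow (-1) • Λ (x ++ [death i] ++ y)
  deathNeg : ∀ x i y, Closed (x ++ [death i] ++ y) →
    Λ (x ++ [neg i, death i] ++ y) = aPow 1 • Λ (x ++ [death i] ++ y)
  skein : ∀ x i y, Closed (x ++ [pos i] ++ y) →
    Λ (x ++ [pos i] ++ y) + Λ (x ++ [neg i] ++ y) =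
      zVar • (Λ (x ++ y) + Λ (x ++ [death i, birth i] ++ y))

/-- The normalised Kauffman polynomial `a^{-w(D)} Λ_D(a,z)`, for a diagram with writhe `t` whose
value `Λ_D` is `p`. -/
noncomputable def normalised (t : ℤ) (p : Raz) : Raz := aPow (-t) * p

/-- The set of the exponents of `a` which occur in `p(a⁻¹, z)`. -/
noncomputable def exponentsInv (p : Raz) : Set ℤ := {n | (invert p).coeff n ≠ 0}

/-! ### Oriented diagrams -/

/-- The elementary pieces of an oriented sliced diagram. In `birth i b`, the left one of the two new
strands is directed downwards if `b = true` and upwards if `b = false` (and the right one the other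
way); the directions of all other strands follow. -/
inductive OPiece : Type
  | birth (i : ℕ) (b : Bool) : OPiece
  | death (i : ℕ) : OPiece
  | pos (i : ℕ) : OPiece
  | neg (i : ℕ) : OPiece
  deriving DecidableEq

/-- Oriented diagrams, read from top to bottom. -/
abbrev OWord : Type := List OPiece

namespace OPiece

/-- Forgetting the orientation. -/
def forget : OPiece → Piece
  | birth i _ => Piece.birth i
  | death i => Piece.death i
  | pos i => Piece.pos i
  | neg i => Piece.neg i

/-- The directions (`true` = downwards) of the strands below the piece, from left to right, if `d`
lists the directions of the strands above it; `none` if the piece does not fit. A minimum has to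
join two strands with opposite directions. -/
def below : OPiece → List Bool → Option (List Bool)
  | birth i b, d => if i ≤ d.length then some (d.take i ++ [b, !b] ++ d.drop i) else none
  | death i, d =>
    match d.drop i with
    | x :: y :: r => if x = !y then some (d.take i ++ r) else none
    | _ => none
  | pos i, d =>
    match d.drop i with
    | x :: y :: r => some (d.take i ++ [y, x] ++ r)
    | _ => none
  | neg i, d =>
    match d.drop i with
    | x :: y :: r => some (d.take i ++ [y, x] ++ r)
    | _ => none

/-- The sign of a crossing (`0` for the other pieces) if `d` lists the directions of the strands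
above it. -/
def sign : OPiece → List Bool → ℤ
  | birth _ _, _ => 0
  | death _, _ => 0
  | pos i, d => if d[i]? = d[i + 1]? then 1 else -1
  | neg i, d => if d[i]? = d[i + 1]? then -1 else 1

end OPiece

/-- The directions of the strands below an oriented diagram, from the directions above it. -/
def below : OWord → List Bool → Option (List Bool)
  | [], d => some d
  | p :: w, d => (p.below d).bind (below w)

/-- Oriented link diagrams: no endpoints, and the orientations match. -/
def OClosed (w : OWord) : Prop := below w [] = some []

/-- The underlying unoriented diagram. -/
def forget (w : OWord) : Word := w.map OPiece.forget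

/-- The sum of the signs of the crossings of an oriented diagram, if `d` lists the directions of the
strands above it. -/
def writheFrom : OWord → List Bool → ℤ
  | [], _ => 0
  | p :: w, d => p.sign d + writheFrom w ((p.below d).getD [])

/-- The writhe of an oriented link diagram. -/
def writhe (w : OWord) : ℤ := writheFrom w []

/-- Two oriented link diagrams differ by one move of sliced diagrams (planar isotopy or a
Reidemeister move), compatible with the orientations. -/
inductive OStep : OWord → OWord → Prop
  | mk (x l r y : OWord) (d e : List Bool) :
      LocalMove (forget l) (forget r) ∨ FirstMove (forget l) (forget r) →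
      below x [] = some d → below l d = some e → below r d = some e → below y e = some [] →
      OStep (x ++ l ++ y) (x ++ r ++ y)

/-- Isotopy of oriented links, for their diagrams. -/
def OIsotopic : OWord → OWord → Prop := Relation.EqvGen OStep

/-! ### Seifert surfaces -/

/-- The elementary pieces of a sliced compact oriented surface which is built of flat strips. All
strips show their positive side to the viewer, they are numbered `0, 1, 2, ...` from left to right;
the left edge of a strip is directed downwards and its right edge upwards.
* `cap i`: a new strip (a disc) starts, and becomes the strip `i`;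
* `cup i`: the strip `i` ends;
* `split i`: the strip `i` splits into the two strips `i`, `i+1`;
* `merge i`: the strips `i`, `i+1` merge into one strip `i`;
* `front i`, `back i`: the strips `i` and `i+1` cross; the strip running from top right to bottom left
  passes in front of (for `front`) or behind (for `back`) the other one;
* `twistPos i`, `twistNeg i`: the strip `i` makes a full twist. -/
inductive Band : Type
  | cap (i : ℕ) : Band
  | cup (i : ℕ) : Band
  | split (i : ℕ) : Band
  | merge (i : ℕ) : Band
  | front (i : ℕ) : Band
  | back (i : ℕ) : Band
  | twistPos (i : ℕ) : Band
  | twistNeg (i : ℕ) : Band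
  deriving DecidableEq

/-- Sliced surfaces, read from top to bottom. -/
abbrev Strips : Type := List Band

namespace Band

/-- The number of strips below a piece if there are `n` strips above it
(`none` if the piece does not fit). -/
def strips : Band → ℕ → Option ℕ
  | cap i, n => if i ≤ n then some (n + 1) else none
  | cup i, n => if i + 1 ≤ n then some (n - 1) else none
  | split i, n => if i + 1 ≤ n then some (n + 1) else none
  | merge i, n => if i + 2 ≤ n then some (n - 1) else none
  | front i, n => if i + 2 ≤ n then some n else none
  | back i, n => if i + 2 ≤ n then some n else none
  | twistPos i, n => if i + 1 ≤ n then some n else none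
  | twistNeg i, n => if i + 1 ≤ n then some n else none

/-- The contribution of a piece to the Euler characteristic: a new disc adds `1`, merging two strips
subtracts `1`, nothing else changes it. -/
def euler : Band → ℤ
  | cap _ => 1
  | merge _ => -1
  | _ => 0

/-- The oriented boundary of a piece: the strip `i` has the edges `2i` and `2i+1`. -/
def boundary : Band → OWord
  | cap i => [.birth (2 * i) true]
  | cup i => [.death (2 * i)]
  | split i => [.birth (2 * i + 1) false]
  | merge i => [.death (2 * i + 1)]
  | front i => [.pos (2 * i + 1), .pos (2 * i), .pos (2 * i + 2), .pos (2 * i + 1)]
  | back i => [.neg (2 * i + 1), .neg (2 * i), .neg (2 * i + 2), .neg (2 * i + 1)]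
  | twistPos i => [.pos (2 * i), .pos (2 * i)]
  | twistNeg i => [.neg (2 * i), .neg (2 * i)]

end Band

/-- The number of strips below a sliced surface if there are `n` strips above it. -/
def strips : Strips → ℕ → Option ℕ
  | [], n => some n
  | p :: R, n => (p.strips n).bind (strips R)

/-- Sliced surfaces which start and end without strips. They have no closed components, since each
component contains the top end of some strip. -/
def IsSurface (R : Strips) : Prop := strips R 0 = some 0

/-- The Euler characteristic of a sliced surface. -/
def euler (R : Strips) : ℤ := (R.map Band.euler).sum

/-- The oriented boundary of a sliced surface, an oriented link diagram. -/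
def boundary (R : Strips) : OWord := (R.map Band.boundary).flatten

/-- The set of the Euler characteristics of the Seifert surfaces of the oriented link with diagram
`D`. -/
def seifertEuler (D : OWord) : Set ℤ :=
  {c | ∃ R : Strips, IsSurface R ∧ OIsotopic (boundary R) D ∧ euler R = c}

/-- `χ(L)`, the maximal Euler characteristic of a Seifert surface of the oriented link `L` with
diagram `D`. -/
noncomputable def chi (D : OWord) : ℤ := sSup (seifertEuler D)

end Pool.Agent.Helper127.Kauf
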