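import Mathlib

set_option autoImplicit false

namespace Pool.Agent.Helper127.Kauf

/-- polynomials in `z`: list of coefficients, constant term first -/
abbrev ZP := List ℤ

def ZP.cons (x : ℤ) : ZP → ZP
  | [] => if x = 0 then [] else [x]
  | y :: p => x :: y :: p

def ZP.add : ZP → ZP → ZP
  | [], q => q
  | p, [] => p
  | x :: p, y :: q => ZP.cons (x + y) (ZP.add p q)

def ZP.neg (p : ZP) : ZP := p.map (fun x => -x)

/-- Laurent polynomials in `a` over polynomials in `z`: sorted list of (exponent of a, coefficient) -/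
abbrev Poly := List (ℤ × ZP)

def Poly.cons (i : ℤ) : ZP → Poly → Poly
  | [], p => p
  | y :: x, p => (i, y :: x) :: p

def Poly.addAux (rec : Poly → Poly) (i : ℤ) (x : ZP) (p : Poly) : Poly → Poly
  | [] => (i, x) :: p
  | (j, y) :: q =>
    if i < j then (i, x) :: rec ((j, y) :: q)
    else if i = j then Poly.cons i (ZP.add x y) (rec q)
    else (j, y) :: Poly.addAux rec i x p q

def Poly.add : Poly → Poly → Poly
  | [] => fun q => q
  | (i, x) :: p => Poly.addAux (Poly.add p) i x p

def Poly.neg (p : Poly) : Poly := p.map (fun t => (t.1, ZP.neg t.2))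
def Poly.mulZ (p : Poly) : Poly := p.map (fun t => (t.1, 0 :: t.2))
def Poly.mulA (k : ℤ) (p : Poly) : Poly := p.map (fun t => (t.1 + k, t.2))

@[reducible] def Vec : ℕ → Type
  | 0 => Poly
  | m + 1 => List (Vec m)

def zero : (m : ℕ) → Vec m
  | 0 => ([] : Poly)
  | m + 1 => ([] : List (Vec m))

def addL {α : Type} (f : α → α → α) : List α → List α → List α
  | [], q => q
  | p, [] => p
  | x :: p, y :: q => f x y :: addL f p q

def add : (m : ℕ) → Vec m → Vec m → Vec m
  | 0 => Poly.add
  | m + 1 => addL (add m)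

def mapV (f : Poly → Poly) : (m : ℕ) → Vec m → Vec m
  | 0 => f
  | m + 1 => List.map (mapV f m)

def push (m : ℕ) : ℕ → Vec m → Vec (m + 1)
  | 0, v => ([v] : List (Vec m))
  | e + 1, v => (zero m :: push m e v : List (Vec m))

def negV (m : ℕ) (v : Vec m) : Vec m := mapV Poly.neg m v
def mulZ (m : ℕ) (v : Vec m) : Vec m := mapV Poly.mulZ m v
def mulA (k : ℤ) (m : ℕ) (v : Vec m) : Vec m := mapV (Poly.mulA k) m v

/-- sum over entries `e, e+1, ...` (only those `≤ 2m`) of `term` -/
def foldV {m k : ℕ} (term : ℕ → Vec m → Vec k) : ℕ → List (Vec m) → Vec k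
  | _, [] => zero k
  | e, v :: vs => add k (if e ≤ 2 * m then term e v else zero k) (foldV term (e + 1) vs)

def opG : (m : ℕ) → ℕ → ℕ → Vec m → Vec (m + 1)
  | 0, _, g, v => push 0 g v
  | m + 1, l, g, v =>
    if l = 0 then push (m + 1) g v
    else foldV (m := m) (k := m + 2) (fun e w =>
      if e + 2 ≤ l then push (m + 1) e (opG m (l - 2) g w)
      else if l + g ≤ e + 1 then push (m + 1) (e + 2) (opG m (l - 1) g w)
      else add (m + 2) (negV (m + 2) (push (m + 1) (e + 1) (opG m (l - 1) (g - 1) w)))
        (mulZ (m + 2) (add (m + 2) (push (m + 1) (l - 1) (opG m e (l + g - e - 2) w))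
          (push (m + 1) (l + g) (opG m (l - 1) (e + 1 - l) w))))) 0 v

/-- apply `pos (k-1), ..., pos 0` -/
def seqL {α : Type} (z : ℕ → α → α) : ℕ → α → α
  | 0, v => v
  | k + 1, v => seqL z k (z k v)

/-- apply `neg 0, ..., neg (k-1)` -/
def seqR {α : Type} (z : ℕ → α → α) : ℕ → α → α
  | 0, v => v
  | k + 1, v => z k (seqR z k v)

/-- `b = true`: positive piece, `b = false`: negative piece -/
def opZ : (m : ℕ) → Bool → ℕ → Vec m → Vec m
  | 0, _, _, v => v
  | m + 1, b, j, v => foldV (m := m) (k := m + 1) (fun e w =>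
      if j = 0 then
        if e = 0 then push m 0 (mulA (if b then -1 else 1) m w)
        else if b then
          add (m + 1) (negV (m + 1) (opG m 1 (e - 1) w))
            (mulZ (m + 1) (add (m + 1) (push m e w)
              (push m 0 (mulA (-1) m (seqR (opZ m false) (e - 1) w)))))
        else opG m 1 (e - 1) w
      else if j < e then push m e (opZ m b (j - 1) w)
      else if e + 2 ≤ j then push m e (opZ m b (j - 2) w)
      else if j = e + 1 then
        if b then
          add (m + 1) (negV (m + 1) (push m (e + 1) w))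
            (mulZ (m + 1) (add (m + 1) (push m e w) (opG m (e + 1) 0 (seqL (opZ m true) e w))))
        else push m (e + 1) w
      else
        if b then push m (e - 1) w
        else
          add (m + 1) (negV (m + 1) (push m (e - 1) w))
            (mulZ (m + 1) (add (m + 1) (push m e w)
              (mulA 1 (m + 1) (opG m e 0 (seqL (opZ m true) (e - 1) w)))))) 0 v

/-- `z` times the effect of `death j` -/
def opD : (m : ℕ) → ℕ → Vec (m + 1) → Vec m
  | 0, _, [] => ([] : Poly)
  | 0, _, w :: _ => add 0 (mulA 1 0 w) (add 0 (mulA (-1) 0 w) (negV 0 (mulZ 0 w)))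
  | m + 1, j, v => foldV (m := m + 1) (k := m + 1) (fun e w =>
      if j = 0 then
        if e = 0 then add (m + 1) (mulA 1 (m + 1) w)
          (add (m + 1) (mulA (-1) (m + 1) w) (negV (m + 1) (mulZ (m + 1) w)))
        else mulZ (m + 1) (mulA (-1) (m + 1) (seqR (opZ (m + 1) false) (e - 1) w))
      else if j < e then push m (e - 2) (opD m (j - 1) w)
      else if e + 2 ≤ j then push m e (opD m (j - 2) w)
      else if j = e + 1 then mulZ (m + 1) (seqL (opZ (m + 1) true) e w)
      else mulZ (m + 1) (mulA 1 (m + 1) (seqL (opZ (m + 1) true) (e - 1) w))) 0 v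

def runZ (m : ℕ) : List (Bool × ℕ) → Vec m → Vec m
  | [], v => v
  | (b, j) :: l, v => runZ m l (opZ m b j v)

/-- the diagram word of a list of signed generators -/
def toZ (x : ℤ) : Bool × ℕ := (decide (0 < x), x.natAbs - 1)

end Pool.Agent.Helper127.Kauf
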