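import Pool.Agent.Helper127.Kauf.Engine
import Pool.Agent.Helper127.Kauf.Calc

set_option autoImplicit false

namespace Pool.Agent.Helper127.Kauf

open Piece

/-- The Seifert surface of the example: two discs and four bands. -/
def surf : Strips :=
  [.cap 0, .split 0, .cap 2, .split 2, .back 1, .back 1, .front 0, .twistNeg 3, .merge 2, .split 2,
   .merge 0, .split 0, .twistNeg 1, .twistNeg 0, .back 1, .merge 2, .cup 2, .merge 0, .cup 0]

/-- The link of the example: the boundary of the surface. -/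
def link : OWord := boundary surf

def crZ (t : Bool × ℕ) : Piece := if t.1 then pos t.2 else neg t.2

def cr1 : List (Bool × ℕ) :=
  [(false, 3), (false, 2), (false, 4), (false, 3), (false, 3), (false, 2), (false, 4), (false, 3),
   (true, 1), (true, 0), (true, 2), (true, 1), (false, 6), (false, 6)]

def cr2 : List (Bool × ℕ) :=
  [(false, 2), (false, 2), (false, 0), (false, 0), (false, 3), (false, 2), (false, 4), (false, 3)]

def part1 : Word :=
  [birth 0, birth 1, birth 4, birth 5] ++ cr1.map crZ ++ [death 5]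

def part2 : Word := part1 ++ [birth 5] ++ [death 1]

def part3 : Word := part2 ++ [birth 1] ++ cr2.map crZ ++ [death 5] ++ [death 4] ++ [death 1]

theorem link_word : forget link = part3 ++ [death 0] := by decide +kernel

theorem closed_link : Closed (forget link) := by decide +kernel

theorem oclosed_link : OClosed link := by
  show below link [] = some []
  decide +kernel

theorem writhe_link : writhe link = 6 := by decide +kernel

theorem isSurface_surf : IsSurface surf := by
  show strips surf 0 = some 0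
  decide +kernel

theorem euler_surf : euler surf = -2 := by decide +kernel

def start : Vec 4 := opG 3 5 0 (opG 2 4 0 (opG 1 1 0 (opG 0 0 0 ([(0, [1])] : Poly))))

def stage1 : Vec 3 := opD 3 5 (runZ 4 cr1 start)

def stage2 : Vec 3 := opD 3 1 (opG 3 5 0 stage1)

def final : Vec 1 := opD 1 1 (opD 2 4 (opD 3 5 (runZ 4 cr2 (opG 3 1 0 stage2))))

def finalL : List (List (ℤ × List ℤ)) := final

def expected : List (List (ℤ × List ℤ)) :=
[[(-7, [0, 0, -1, 0, 12, 0, -60, 0, 181, 0, -345, 0, 376, 0, -231, 0, 79, 0, -14, 0, 1]),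
    (-6, [0, 0, 0, 3, 0, -23, 0, 56, 0, -27, 0, -104, 0, 207, 0, -165, 0, 66, 0, -13, 0, 1]),
    (-5, [0, 0, -3, 0, 36, 0, -183, 0, 530, 0, -942, 0, 1009, 0, -633, 0, 224, 0, -41, 0, 3]),
    (-4, [0, 0, 0, 6, 0, -52, 0, 153, 0, -197, 0, 100, 0, 53, 0, -101, 0, 53, 0, -12, 0, 1]),
    (-3, [0, 0, -3, 0, 42, 0, -196, 0, 459, 0, -676, 0, 659, 0, -405, 0, 145, 0, -27, 0, 2]),
    (-2, [0, 0, 0, 3, 0, -39, 0, 127, 0, -199, 0, 214, 0, -155, 0, 64, 0, -13, 0, 1]),
    (-1, [0, 0, -1, 0, 21, 0, -74, 0, 107, 0, -78, 0, 26, 0, -3]),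
    (0, [0, 0, 0, 0, 0, -11, 0, 30, 0, -29, 0, 10, 0, -1]), (1, [0, 0, 0, 0, 3, 0, -1, 0, -3, 0, 1]),
    (2, [0, 0, 0, 0, 0, -2])]]

end Pool.Agent.Helper127.Kauf
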