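import Mathlib

set_option autoImplicit false

namespace Pool.Agent.Helper127.Kauf.Ex

/-- parameters -/
class Par (R : Type) [CommRing R] where
  a : R
  ai : R
  z : R
  zi : R
  dl : R
  h1 : a * ai = 1
  h2 : z * dl = a + ai - z
  h3 : z * zi = 1

open Par

/-- the big space: formal combinations of lists of positions -/
abbrev V (R : Type) [CommRing R] : Type := List ℕ →₀ R

noncomputable section

variable {R : Type} [CommRing R]

/-- an arc over everything -/
def P (e : ℕ) : V R →ₗ[R] V R := Finsupp.lmapDomain R R (List.cons e)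

theorem P_inj (e : ℕ) {u v : V R} (h : P e u = P e v) : u = v :=
  Finsupp.mapDomain_injective (List.cons_injective) h

theorem P_apply (e : ℕ) (t : List ℕ) (v : V R) : P e v (e :: t) = v t :=
  Finsupp.mapDomain_apply (List.cons_injective) v t

/-- a linear map given by its restrictions to the blocks -/
def blk (F : ℕ → V R →ₗ[R] V R) : V R →ₗ[R] V R :=
  Finsupp.linearCombination R (fun l => match l with
    | [] => 0
    | e :: t => F e (Finsupp.single t 1))

theorem blk_P (F : ℕ → V R →ₗ[R] V R) (e : ℕ) (v : V R) : blk F (P e v) = F e v := by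
  have : (blk F).comp (P e) = F e := by
    refine Finsupp.lhom_ext fun t r => ?_
    rw [LinearMap.comp_apply, P, Finsupp.lmapDomain_apply, Finsupp.mapDomain_single, blk,
      Finsupp.linearCombination_single]
    rw [← map_smul, Finsupp.smul_single, smul_eq_mul, mul_one]
  rw [← this]
  rfl

/-- the birth on lists -/
def bL : ℕ → List ℕ → List ℕ
  | 0, t => 0 :: t
  | _ + 1, [] => []
  | l + 1, e :: t => if l ≤ e then (e + 2) :: bL l t else e :: bL (l - 1) t

def B (l : ℕ) : V R →ₗ[R] V R := Finsupp.lmapDomain R R (bL l)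

theorem B_zero (v : V R) : B 0 v = P 0 v := by
  have : bL 0 = List.cons 0 := by
    funext t
    cases t <;> rfl
  rw [B, this]
  rfl

theorem B_le {l e : ℕ} (h : l ≤ e) (v : V R) : B (l + 1) (P e v) = P (e + 2) (B l v) := by
  have : (B (l + 1)).comp (P e) = (P (e + 2)).comp (B l : V R →ₗ[R] V R) := by
    refine Finsupp.lhom_ext fun t r => ?_
    simp [B, P, Finsupp.mapDomain_single, bL, h]
  exact LinearMap.congr_fun this v

theorem B_ge {l e : ℕ} (h : e ≤ l) (v : V R) : B (l + 2) (P e v) = P e (B l v) := by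
  have : (B (l + 2)).comp (P e) = (P e).comp (B l : V R →ₗ[R] V R) := by
    refine Finsupp.lhom_ext fun t r => ?_
    have h' : ¬ (l + 1 ≤ e) := by omega
    simp [B, P, Finsupp.mapDomain_single, bL, h']
  exact LinearMap.congr_fun this v

variable [Par R]

/-- `neg s`, ..., `neg (s+k-1)` -/
def Nn (Y : ℕ → V R →ₗ[R] V R) (s : ℕ) : ℕ → V R →ₗ[R] V R
  | 0 => LinearMap.id
  | k + 1 => (Y (s + k)).comp (Nn Y s k)

/-- `pos (k-1)`, ..., `pos 0` -/
def Ll (Y : ℕ → V R →ₗ[R] V R) : ℕ → V R →ₗ[R] V R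
  | 0 => LinearMap.id
  | k + 1 => (Ll Y k).comp (Y k)

def Xp (Y : Bool → ℕ → V R →ₗ[R] V R) (b : Bool) (j : ℕ) : V R →ₗ[R] V R :=
  blk (R := R) (fun e =>
    if j < e then (P e).comp (Y b (j - 1))
    else if e + 2 ≤ j then (P e).comp (Y b (j - 2))
    else if j = e + 1 then
      if b then -(P (e + 1) : V R →ₗ[R] V R) +
        (z : R) • (P e + (B (e + 1)).comp (Ll (Y true) e)) else P (e + 1)
    else
      if b then P (e - 1)
      else -(P (e - 1) : V R →ₗ[R] V R) +
        (z : R) • (P e + (a : R) • (B e).comp (Ll (Y true) (e - 1))))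

def X0 (Y : Bool → ℕ → V R →ₗ[R] V R) (b : Bool) : V R →ₗ[R] V R :=
  blk (fun e =>
    if e = 0 then (if b then (ai : R) else a) • P 0
    else if b then -(Nn (Xp Y false) 2 (e - 1)).comp (B 1) +
      (z : R) • (P e + (ai : R) • (P 0).comp (Nn (Y false) 0 (e - 1)))
    else (Nn (Xp Y false) 2 (e - 1)).comp (B 1))

def X : ℕ → Bool → ℕ → V R →ₗ[R] V R
  | 0, _, _ => LinearMap.id
  | m + 1, b, j => if j = 0 then X0 (X m) b else Xp (X m) b j

def N (m s k : ℕ) : V R →ₗ[R] V R := Nn (X m false) s k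
def L (m k : ℕ) : V R →ₗ[R] V R := Ll (X m true) k

def D : ℕ → ℕ → V R →ₗ[R] V R
  | 0, _ => blk (fun _ => (dl : R) • LinearMap.id)
  | m + 1, j => blk (fun e =>
    if j = 0 then (if e = 0 then (dl : R) • LinearMap.id else (ai : R) • N (m + 1) 0 (e - 1))
    else if j < e then (P (e - 2)).comp (D m (j - 1))
    else if e + 2 ≤ j then (P e).comp (D m (j - 2))
    else if j = e + 1 then L (m + 1) e
    else (a : R) • L (m + 1) (e - 1))

/-! ### basic rules -/

theorem N_zero (m s : ℕ) (v : V R) : N m s 0 v = v := rfl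
theorem N_succ (m s k : ℕ) (v : V R) : N m s (k + 1) v = X m false (s + k) (N m s k v) := rfl
theorem L_zero (m : ℕ) (v : V R) : L m 0 v = v := rfl
theorem L_succ (m k : ℕ) (v : V R) : L m (k + 1) v = L m k (X m true k v) := rfl

omit [Par R] in
theorem Nn_congr {Y Y' : ℕ → V R →ₗ[R] V R} {s : ℕ} (h : ∀ j, s ≤ j → Y j = Y' j) (k : ℕ) :
    Nn Y s k = Nn Y' s k := by
  induction k with
  | zero => rfl
  | succ k ih => rw [Nn, Nn, ih, h _ (by omega)]

theorem X_succ_pos (m : ℕ) (b : Bool) (j : ℕ) :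
    X (m + 1) b (j + 1) = Xp (X m) b (j + 1) (R := R) := by
  rw [X, if_neg (by omega)]

theorem X_lt (m : ℕ) (b : Bool) {j e : ℕ} (h : j + 1 < e) (v : V R) :
    X (m + 1) b (j + 1) (P e v) = P e (X m b j v) := by
  rw [X_succ_pos, Xp, blk_P, if_pos h]
  rfl

theorem X_ge (m : ℕ) (b : Bool) {j e : ℕ} (h : e ≤ j) (v : V R) :
    X (m + 1) b (j + 2) (P e v) = P e (X m b j v) := by
  rw [X_succ_pos, Xp, blk_P, if_neg (by omega), if_pos (by omega)]
  rfl

theorem Xn_next (m e : ℕ) (v : V R) : X (m + 1) false (e + 1) (P e v) = P (e + 1) v := by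
  rw [X_succ_pos, Xp, blk_P, if_neg (by omega), if_neg (by omega), if_pos rfl, if_neg (by simp)]

theorem Xp_next (m e : ℕ) (v : V R) : X (m + 1) true (e + 1) (P e v) =
    -P (e + 1) v + (z : R) • (P e v + B (e + 1) (L m e v)) := by
  rw [X_succ_pos, Xp, blk_P, if_neg (by omega), if_neg (by omega), if_pos rfl, if_pos rfl]
  rfl

theorem Xp_end (m e : ℕ) (v : V R) : X (m + 1) true (e + 1) (P (e + 1) v) = P e v := by
  rw [X_succ_pos, Xp, blk_P, if_neg (by omega), if_neg (by omega), if_neg (by omega), if_pos rfl]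
  rfl

theorem Xn_end (m e : ℕ) (v : V R) : X (m + 1) false (e + 1) (P (e + 1) v) =
    -P e v + (z : R) • (P (e + 1) v + (a : R) • B (e + 1) (L m e v)) := by
  rw [X_succ_pos, Xp, blk_P, if_neg (by omega), if_neg (by omega), if_neg (by omega),
    if_neg (by simp)]
  rfl

theorem Xn0_zero (m : ℕ) (v : V R) : X (m + 1) false 0 (P 0 v) = (a : R) • P 0 v := by
  rw [X, if_pos rfl, X0, blk_P, if_pos rfl]
  rfl

theorem Xp0_zero (m : ℕ) (v : V R) : X (m + 1) true 0 (P 0 v) = (ai : R) • P 0 v := by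
  rw [X, if_pos rfl, X0, blk_P, if_pos rfl]
  rfl

theorem Xn0_succ (m e : ℕ) (v : V R) :
    X (m + 1) false 0 (P (e + 1) v) = N (m + 1) 2 e (B 1 v) := by
  rw [X, if_pos rfl, X0, blk_P, if_neg (by omega), if_neg (by simp), N,
    Nn_congr (Y := X (m + 1) false) (Y' := Xp (X m) false)]
  · rfl
  · intro j hj
    obtain ⟨j', rfl⟩ : ∃ j', j = j' + 1 := ⟨j - 1, by omega⟩
    exact X_succ_pos m false j'

theorem Xp0_succ (m e : ℕ) (v : V R) : X (m + 1) true 0 (P (e + 1) v) =
    -N (m + 1) 2 e (B 1 v) + (z : R) • (P (e + 1) v + (ai : R) • P 0 (N m 0 e v)) := by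
  rw [X, if_pos rfl, X0, blk_P, if_neg (by omega), if_pos rfl, N,
    Nn_congr (Y := X (m + 1) false) (Y' := Xp (X m) false)]
  · rfl
  · intro j hj
    obtain ⟨j', rfl⟩ : ∃ j', j = j' + 1 := ⟨j - 1, by omega⟩
    exact X_succ_pos m false j'

theorem D0_zero (m : ℕ) (v : V R) : D m 0 (P 0 v) = (dl : R) • v := by
  cases m with
  | zero => rw [D, blk_P]; rfl
  | succ m => rw [D, blk_P, if_pos rfl, if_pos rfl]; rfl

theorem D0_succ {m e : ℕ} (h : e + 1 ≤ 2 * m) (v : V R) :
    D m 0 (P (e + 1) v) = (ai : R) • N m 0 e v := by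
  obtain ⟨m, rfl⟩ : ∃ m', m = m' + 1 := ⟨m - 1, by omega⟩
  rw [D, blk_P, if_pos rfl, if_neg (by omega)]; rfl

theorem D_le (m : ℕ) {j e : ℕ} (h : j ≤ e) (v : V R) :
    D (m + 1) (j + 1) (P (e + 2) v) = P e (D m j v) := by
  rw [D, blk_P, if_neg (by omega), if_pos (by omega)]; rfl

theorem D_ge (m : ℕ) {j e : ℕ} (h : e ≤ j) (v : V R) :
    D (m + 1) (j + 2) (P e v) = P e (D m j v) := by
  rw [D, blk_P, if_neg (by omega), if_neg (by omega), if_pos (by omega)]; rfl

theorem D_next {m e : ℕ} (h : e + 1 ≤ 2 * m) (v : V R) : D m (e + 1) (P e v) = L m e v := by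
  obtain ⟨m, rfl⟩ : ∃ m', m = m' + 1 := ⟨m - 1, by omega⟩
  rw [D, blk_P, if_neg (by omega), if_neg (by omega), if_neg (by omega), if_pos rfl]

theorem D_end {m e : ℕ} (h : e + 1 ≤ 2 * m) (v : V R) :
    D m (e + 1) (P (e + 1) v) = (a : R) • L m e v := by
  obtain ⟨m, rfl⟩ : ∃ m', m = m' + 1 := ⟨m - 1, by omega⟩
  rw [D, blk_P, if_neg (by omega), if_neg (by omega), if_neg (by omega), if_neg (by omega)]; rfl

theorem a_ai (v : V R) : (a : R) • (ai : R) • v = v := by
  rw [smul_smul, h1, one_smul]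

theorem ai_a (v : V R) : (ai : R) • (a : R) • v = v := by
  rw [smul_smul, mul_comm, h1, one_smul]

/-! ### the spaces -/

def Val : ℕ → Submodule R (V R)
  | 0 => Submodule.span R {Finsupp.single [] 1}
  | m + 1 => ⨆ e : Fin (2 * m + 1), (Val m).map (P (e : ℕ))

omit [Par R] in
theorem P_mem {m e : ℕ} {v : V R} (hv : v ∈ Val (R := R) m) (h : e ≤ 2 * m) :
    P e v ∈ Val (R := R) (m + 1) :=
  Submodule.mem_iSup_of_mem (⟨e, by omega⟩ : Fin (2 * m + 1)) (Submodule.mem_map_of_mem hv)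

omit [Par R] in
theorem Val_ext {m : ℕ} (f g : V R →ₗ[R] V R)
    (h : ∀ e ≤ 2 * m, ∀ v ∈ Val (R := R) m, f (P e v) = g (P e v)) :
    ∀ v ∈ Val (R := R) (m + 1), f v = g v := by
  have : Val (R := R) (m + 1) ≤ LinearMap.eqLocus f g := by
    refine iSup_le fun e => ?_
    rintro _ ⟨v, hv, rfl⟩
    exact h e (by omega) v hv
  exact this

omit [Par R] in
theorem Val_map {m : ℕ} (f : V R →ₗ[R] V R) (W : Submodule R (V R))
    (h : ∀ e ≤ 2 * m, ∀ v ∈ Val (R := R) m, f (P e v) ∈ W) :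
    ∀ v ∈ Val (R := R) (m + 1), f v ∈ W := by
  have : Val (R := R) (m + 1) ≤ W.comap f := by
    refine iSup_le fun e => ?_
    rintro _ ⟨v, hv, rfl⟩
    exact h e (by omega) v hv
  exact this

omit [Par R] in
theorem B_mem {m l : ℕ} {v : V R} (hv : v ∈ Val (R := R) m) (h : l ≤ 2 * m) :
    B l v ∈ Val (R := R) (m + 1) := by
  induction m generalizing l v with
  | zero =>
    obtain rfl : l = 0 := by omega
    rw [B_zero]
    exact P_mem hv h
  | succ m ih =>
    cases l with
    | zero =>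
      rw [B_zero]
      exact P_mem hv (by omega)
    | succ l =>
      refine Val_map (B (l + 1)) _ ?_ v hv
      intro e he w hw
      by_cases hc : l ≤ e
      · rw [B_le hc]
        exact P_mem (ih hw (by omega)) (by omega)
      · obtain ⟨l', rfl⟩ : ∃ l', l = l' + 1 := ⟨l - 1, by omega⟩
        rw [B_ge (by omega)]
        exact P_mem (ih hw (by omega)) (by omega)

/-- births commute -/
theorem bb {m i j : ℕ} (hij : i ≤ j) (hj : j ≤ 2 * m) {v : V R} (hv : v ∈ Val (R := R) m) :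
    B (j + 2) (B i v) = B i (B j v) := by
  induction m generalizing i j v with
  | zero =>
    obtain rfl : j = 0 := by omega
    obtain rfl : i = 0 := by omega
    rw [B_zero, B_ge (le_refl 0), B_zero, B_zero]
  | succ m ih =>
    cases i with
    | zero =>
      rw [B_zero, B_ge (Nat.zero_le _), B_zero]
    | succ i =>
      obtain ⟨j, rfl⟩ : ∃ j', j = j' + 1 := ⟨j - 1, by omega⟩
      refine Val_ext ((B (j + 1 + 2)).comp (B (i + 1))) ((B (i + 1)).comp (B (j + 1))) ?_ v hv
      intro e he w hw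
      show B (j + 1 + 2) (B (i + 1) (P e w)) = B (i + 1) (B (j + 1) (P e w))
      by_cases h1 : j ≤ e
      · rw [B_le (by omega : i ≤ e), B_le h1, B_le (by omega : j + 2 ≤ e + 2), B_le (by omega),
          ih (by omega) (by omega) hw]
      · obtain ⟨j', rfl⟩ : ∃ j', j = j' + 1 := ⟨j - 1, by omega⟩
        rw [B_ge (by omega : e ≤ j')]
        by_cases h2 : i ≤ e
        · rw [B_le h2, B_ge (by omega : e + 2 ≤ j' + 1 + 1), B_le h2, ih (by omega) (by omega) hw]
        · obtain ⟨i', rfl⟩ : ∃ i', i = i' + 1 := ⟨i - 1, by omega⟩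
          rw [B_ge (by omega : e ≤ i'), B_ge (by omega : e ≤ i'), B_ge (by omega : e ≤ j' + 1 + 1),
            ← ih (by omega : i' ≤ j') (by omega) hw]

attribute [irreducible] X D P B blk

end

end Pool.Agent.Helper127.Kauf.Ex
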