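import Pool.Agent.Helper127.Kauf.Exist3

set_option autoImplicit false

namespace Pool.Agent.Helper127.Kauf.Ex

open Par

noncomputable section

set_option linter.unusedSectionVars false

theorem cases4 (j e : ℕ) :
    j + 1 < e ∨ e = j + 1 ∨ j = e ∨ ∃ j', j = j' + 1 ∧ e ≤ j' := by
  rcases Nat.lt_trichotomy (j + 1) e with h | h | h
  · exact Or.inl h
  · exact Or.inr (Or.inl h.symm)
  · rcases Nat.lt_or_ge e j with h' | h'
    · exact Or.inr (Or.inr (Or.inr ⟨j - 1, by omega, by omega⟩))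
    · exact Or.inr (Or.inr (Or.inl (by omega)))

section
variable {R : Type} [CommRing R] [Par R] {m : ℕ}

theorem new_mem (H : Rel R 0 m) (b : Bool) (j : ℕ) (hj : j + 1 ≤ 2 * (m + 1)) :
    ∀ v ∈ Val (R := R) (m + 1 + 1), X (m + 1 + 1) b (j + 1) v ∈ Val (R := R) (m + 1 + 1) := by
  refine Val_map _ _ ?_
  intro e he w hw
  rcases cases4 j e with h | rfl | rfl | ⟨j', rfl, h⟩
  · rw [X_lt _ _ h]
    exact P_mem (H.mem _ _ (by omega) (by omega) _ hw) he
  · have hL := H.L_mem (k := j) (by omega) hw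
    cases b
    · rw [Xn_end]
      exact add_mem (neg_mem (P_mem hw (by omega))) (Submodule.smul_mem _ _
        (add_mem (P_mem hw he) (Submodule.smul_mem _ _ (B_mem hL (by omega)))))
    · rw [Xp_end]
      exact P_mem hw (by omega)
  · have hL := H.L_mem (k := j) (by omega) hw
    cases b
    · rw [Xn_next]
      exact P_mem hw (by omega)
    · rw [Xp_next]
      exact add_mem (neg_mem (P_mem hw (by omega))) (Submodule.smul_mem _ _
        (add_mem (P_mem hw he) (B_mem hL (by omega))))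
  · rw [X_ge _ _ h]
    exact P_mem (H.mem _ _ (by omega) (by omega) _ hw) he

theorem new_curl (H : Rel R 0 m) (b : Bool) (i : ℕ) (hi : i ≤ 2 * (m + 1)) :
    ∀ v ∈ Val (R := R) (m + 1), X (m + 1 + 1) b i (B i v) = cf R b • B i v := by
  cases i with
  | zero =>
    intro v hv
    rw [B_zero]
    cases b
    · exact Xn0_zero _ _
    · exact Xp0_zero _ _
  | succ i =>
    refine Val_ext ((X (m + 1 + 1) b (i + 1)).comp (B (i + 1)))
      (cf R b • (B (i + 1) : V R →ₗ[R] V R)) ?_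
    intro c hc u hu
    show X (m + 1 + 1) b (i + 1) (B (i + 1) (P c u)) = cf R b • B (i + 1) (P c u)
    by_cases h : i ≤ c
    · rw [B_le h, X_lt _ _ (by omega), H.curl b i (by omega) (by omega) u hu, map_smul]
    · obtain ⟨i, rfl⟩ : ∃ i', i = i' + 1 := ⟨i - 1, by omega⟩
      rw [B_ge (by omega), X_ge _ _ (by omega), H.curl b i (by omega) (by omega) u hu, map_smul]

theorem new_xb (H : Rel R 0 m) (b : Bool) (i j : ℕ) (hij : i ≤ j) (hj : j + 2 ≤ 2 * (m + 1)) :
    ∀ v ∈ Val (R := R) (m + 1),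
      X (m + 1 + 1) b (j + 2) (B i v) = B i (X (m + 1) b j v) := by
  cases i with
  | zero =>
    intro v hv
    rw [B_zero, X_ge _ _ (Nat.zero_le _), B_zero]
  | succ i =>
    obtain ⟨j, rfl⟩ : ∃ j', j = j' + 1 := ⟨j - 1, by omega⟩
    refine Val_ext ((X (m + 1 + 1) b (j + 1 + 2)).comp (B (i + 1)))
      ((B (i + 1)).comp (X (m + 1) b (j + 1))) ?_
    intro c hc u hu
    show X (m + 1 + 1) b (j + 1 + 2) (B (i + 1) (P c u)) = B (i + 1) (X (m + 1) b (j + 1) (P c u))
    by_cases hi : i ≤ c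
    · rw [B_le hi]
      rcases cases4 j c with h | rfl | rfl | ⟨j, rfl, h⟩
      · rw [X_lt _ _ (by omega : j + 2 + 1 < c + 2), X_lt _ _ h, B_le hi,
          H.xb b i j (by omega) (by omega) u hu]
      · cases b
        · rw [Xn_end (m + 1) (j + 2), Xn_end, map_add, map_neg, map_smul, map_add, map_smul,
            B_le (by omega : i ≤ j), B_le hi,
            H.LB1 (by omega : i ≤ j) (by omega) hu,
            bb (by omega : i + 1 ≤ j + 1) (by omega) (H.L_mem0 (k := j) (by omega) hu)]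
        · rw [Xp_end (m + 1) (j + 2), Xp_end, B_le (by omega)]
      · cases b
        · rw [Xn_next (m + 1) (j + 2), Xn_next, B_le (by omega)]
        · rw [Xp_next (m + 1) (j + 2), Xp_next, map_add, map_neg, map_smul, map_add,
            B_le (by omega : i ≤ j + 1), B_le hi,
            H.LB1 (by omega : i ≤ j) (by omega) hu,
            bb (by omega : i + 1 ≤ j + 1) (by omega) (H.L_mem0 (k := j) (by omega) hu)]
      · rw [X_ge _ _ (by omega : c + 2 ≤ j + 1 + 1), X_ge _ _ h, B_le hi,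
          H.xb b i j (by omega) (by omega) u hu]
    · obtain ⟨i, rfl⟩ : ∃ i', i = i' + 1 := ⟨i - 1, by omega⟩
      obtain ⟨j, rfl⟩ : ∃ j', j = j' + 1 := ⟨j - 1, by omega⟩
      rw [B_ge (by omega), X_ge _ _ (by omega : c ≤ j + 1 + 1), X_ge _ _ (by omega : c ≤ j),
        B_ge (by omega), H.xb b i j (by omega) (by omega) u hu]

theorem new_bx (H : Rel R 0 m) (b : Bool) (i j : ℕ) (hij : j + 3 ≤ i) (hi : i ≤ 2 * (m + 1)) :
    ∀ v ∈ Val (R := R) (m + 1),
      X (m + 1 + 1) b (j + 1) (B i v) = B i (X (m + 1) b (j + 1) v) := by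
  obtain ⟨i, rfl⟩ : ∃ i', i = i' + 1 := ⟨i - 1, by omega⟩
  refine Val_ext ((X (m + 1 + 1) b (j + 1)).comp (B (i + 1)))
    ((B (i + 1)).comp (X (m + 1) b (j + 1))) ?_
  intro c hc u hu
  show X (m + 1 + 1) b (j + 1) (B (i + 1) (P c u)) = B (i + 1) (X (m + 1) b (j + 1) (P c u))
  by_cases h : i ≤ c
  · rw [B_le h, X_lt _ _ (by omega : j + 1 < c + 2), X_lt _ _ (by omega : j + 1 < c), B_le h,
      H.bx b i j (by omega) (by omega) (by omega) u hu]
  · obtain ⟨i, rfl⟩ : ∃ i', i = i' + 1 := ⟨i - 1, by omega⟩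
    rw [B_ge (by omega : c ≤ i)]
    rcases cases4 j c with h' | rfl | rfl | ⟨j, rfl, h'⟩
    · rw [X_lt _ _ h', X_lt _ _ h', B_ge (by omega : c ≤ i),
        H.bx b i j (by omega) (by omega) (by omega) u hu]
    · cases b
      · rw [Xn_end, Xn_end, map_add, map_neg, map_smul, map_add, map_smul,
          B_ge (by omega : j ≤ i), B_ge (by omega : j + 1 ≤ i), H.LB2 (by omega : j < i) (by omega) hu,
          bb (by omega : j + 1 ≤ i) (by omega) (H.L_mem0 (k := j) (by omega) hu)]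
      · rw [Xp_end, Xp_end, B_ge (by omega : j ≤ i)]
    · cases b
      · rw [Xn_next, Xn_next, B_ge (by omega : j + 1 ≤ i)]
      · rw [Xp_next, Xp_next, map_add, map_neg, map_smul, map_add,
          B_ge (by omega : j + 1 ≤ i), B_ge (by omega : j ≤ i), H.LB2 (by omega : j < i) (by omega) hu,
          bb (by omega : j + 1 ≤ i) (by omega) (H.L_mem0 (k := j) (by omega) hu)]
    · rw [X_ge _ _ h', X_ge _ _ h', B_ge (by omega : c ≤ i),
        H.bx b i j (by omega) (by omega) (by omega) u hu]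

/-- `aL_{c+1} P_c = P_0`-type computation -/
theorem Lg_P (m k : ℕ) (v : V R) : Lg (m + 1) 1 k (P k v) = P 0 v := by
  induction k with
  | zero => rfl
  | succ k ih => rw [Lg_succ, show 1 + k = k + 1 by omega, Xp_end, ih]

theorem L_P (m k : ℕ) (v : V R) : L (m + 1) (k + 1) (P k v) = (ai : R) • P 0 v := by
  rw [L_head, Lg_P, Xp0_zero]

theorem Rel.L_B (H : Rel R 0 m) {k : ℕ} (hk : k ≤ 2 * m) {v : V R}
    (hv : v ∈ Val (R := R) m) : L (m + 1) (k + 1) (B k v) = (ai : R) • P k v := by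
  rw [L_succ, H.curl true k (by omega) hk v hv, map_smul, H.LB0 hk hv]
  rfl

theorem new_slide (H : Rel R 0 m) (b : Bool) (i : ℕ) (hi : i + 2 ≤ 2 * (m + 1)) :
    ∀ v ∈ Val (R := R) (m + 1),
      X (m + 1 + 1) b (i + 2) (B (i + 1) v) = X (m + 1 + 1) (!b) (i + 1) (B (i + 2) v) := by
  refine Val_ext ((X (m + 1 + 1) b (i + 2)).comp (B (i + 1)))
    ((X (m + 1 + 1) (!b) (i + 1)).comp (B (i + 2))) ?_
  intro c hc u hu
  show X (m + 1 + 1) b (i + 2) (B (i + 1) (P c u)) =
    X (m + 1 + 1) (!b) (i + 1) (B (i + 2) (P c u))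
  rcases Nat.lt_trichotomy i c with h | rfl | h
  · rw [B_le (by omega : i ≤ c), B_le (by omega : i + 1 ≤ c),
      X_lt _ _ (by omega : i + 1 + 1 < c + 2), X_lt _ _ (by omega : i + 1 < c + 2),
      H.slide b i (by omega) (by omega) u hu]
  · rw [B_le (le_refl i), B_ge (le_refl i)]
    cases b
    · rw [Xn_end (m + 1) (i + 1), Bool.not_false, Xp_next, H.L_B (by omega) hu, map_smul,
        a_ai, H.LB0 (by omega) hu, B_ge (le_refl i), B_le (le_refl i),
        add_comm (P (i + 1 + 1) (B i u))]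
    · rw [Xp_end (m + 1) (i + 1), Bool.not_true, Xn_next]
  · obtain ⟨i, rfl⟩ : ∃ i', i = i' + 1 := ⟨i - 1, by omega⟩
    rw [B_ge (by omega : c ≤ i), B_ge (by omega : c ≤ i + 1), X_ge _ _ (by omega : c ≤ i + 1),
      X_ge _ _ (by omega : c ≤ i), H.slide b i (by omega) (by omega) u hu]

theorem new_skein (H : Rel R 0 m) (HD : RelD R m) (j : ℕ) (hj : j ≤ 2 * (m + 1)) :
    ∀ v ∈ Val (R := R) (m + 1 + 1),
      X (m + 1 + 1) true j v + X (m + 1 + 1) false j v = (z : R) • (v + B j (D (m + 1) j v)) := by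
  refine Val_ext (X (m + 1 + 1) true j + X (m + 1 + 1) false j)
    ((z : R) • (LinearMap.id + (B j).comp (D (m + 1) j) : V R →ₗ[R] V R)) ?_
  intro e he w hw
  show X (m + 1 + 1) true j (P e w) + X (m + 1 + 1) false j (P e w) =
    (z : R) • (P e w + B j (D (m + 1) j (P e w)))
  cases j with
  | zero =>
    rw [B_zero]
    cases e with
    | zero =>
      rw [Xp0_zero, Xn0_zero, D0_zero, map_smul]
      have h := congrArg (fun t : R => t • P 0 w) (h2 (R := R))
      simp only [mul_smul, sub_smul, add_smul] at h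
      rw [smul_add, h]
      abel
    | succ e =>
      rw [Xp0_succ, Xn0_succ, D0_succ (by omega), map_smul]
      abel
  | succ j =>
    rcases cases4 j e with h | rfl | rfl | ⟨j, rfl, h⟩
    · obtain ⟨e, rfl⟩ : ∃ e', e = e' + 2 := ⟨e - 2, by omega⟩
      rw [X_lt _ _ h, X_lt _ _ h, D_le _ (by omega), B_le (by omega), ← map_add,
        HD.skein j (by omega) w hw, map_smul, map_add]
    · rw [Xp_end, Xn_end, D_end (by omega), map_smul]
      abel
    · rw [Xp_next, Xn_next, D_next (by omega)]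
      abel
    · rw [X_ge _ _ h, X_ge _ _ h, D_ge _ h, B_ge h, ← map_add, HD.skein j (by omega) w hw,
        map_smul, map_add]

theorem new_pn (H : Rel R 0 m) (j : ℕ) (hj : j + 1 ≤ 2 * (m + 1)) :
    ∀ v ∈ Val (R := R) (m + 1 + 1),
      X (m + 1 + 1) true (j + 1) (X (m + 1 + 1) false (j + 1) v) = v := by
  refine Val_ext ((X (m + 1 + 1) true (j + 1)).comp (X (m + 1 + 1) false (j + 1)))
    (LinearMap.id : V R →ₗ[R] V R) ?_
  intro e he w hw
  show X (m + 1 + 1) true (j + 1) (X (m + 1 + 1) false (j + 1) (P e w)) = P e w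
  rcases cases4 j e with h | rfl | rfl | ⟨j, rfl, h⟩
  · rw [X_lt _ _ h, X_lt _ _ h, H.pn j (by omega) (by omega) w hw]
  · have hL := H.L_mem (k := j) (by omega) hw
    have hc := new_curl H true (j + 1) hj _ hL
    simp only [cf, if_true] at hc
    rw [Xn_end, map_add, map_neg, map_smul, map_add, map_smul, Xp_next, Xp_end, hc, a_ai]
    abel
  · rw [Xn_next, Xp_end]
  · rw [X_ge _ _ h, X_ge _ _ h, H.pn j (by omega) (by omega) w hw]

theorem new_np (H : Rel R 0 m) (j : ℕ) (hj : j + 1 ≤ 2 * (m + 1)) :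
    ∀ v ∈ Val (R := R) (m + 1 + 1),
      X (m + 1 + 1) false (j + 1) (X (m + 1 + 1) true (j + 1) v) = v := by
  refine Val_ext ((X (m + 1 + 1) false (j + 1)).comp (X (m + 1 + 1) true (j + 1)))
    (LinearMap.id : V R →ₗ[R] V R) ?_
  intro e he w hw
  show X (m + 1 + 1) false (j + 1) (X (m + 1 + 1) true (j + 1) (P e w)) = P e w
  rcases cases4 j e with h | rfl | rfl | ⟨j, rfl, h⟩
  · rw [X_lt _ _ h, X_lt _ _ h, H.np j (by omega) (by omega) w hw]
  · rw [Xp_end, Xn_next]
  · have hL := H.L_mem (k := j) (by omega) hw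
    have hc := new_curl H false (j + 1) (by omega) _ hL
    simp only [cf, Bool.false_eq_true, if_false] at hc
    rw [Xp_next, map_add, map_neg, map_smul, map_add, Xn_next, Xn_end, hc]
    abel
  · rw [X_ge _ _ h, X_ge _ _ h, H.np j (by omega) (by omega) w hw]

end

end

end Pool.Agent.Helper127.Kauf.Ex
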