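import Pool.Agent.Helper127.Kauf.Exist7
import Pool.Agent.Helper127.Kauf.Defs

set_option autoImplicit false

namespace Pool.Agent.Helper127.Kauf.Ex

open Par Piece

noncomputable section

set_option linter.unusedSectionVars false

section
variable {R : Type} [CommRing R] [Par R] {m : ℕ}

theorem Binj {j : ℕ} (hj : j ≤ 2 * m) {u v : V R}
    (hu : u ∈ Val (R := R) m) (hv : v ∈ Val (R := R) m) (h : B j u = B j v) : u = v := by
  rcases Nat.eq_zero_or_pos m with rfl | hm
  · obtain rfl : j = 0 := by omega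
    rw [B_zero, B_zero] at h
    exact P_inj 0 h
  · exact (allRel m).2.Binj hm hj hu hv h

theorem RelD.E' (HD : RelD R m) (f : V R →ₗ[R] V R) {j : ℕ} (hj : j ≤ 2 * m) {v : V R}
    (hv : v ∈ Val (R := R) (m + 1)) :
    (z : R) • f (B j (D m j v)) = f (X (m + 1) true j v) + f (X (m + 1) false j v) -
      (z : R) • f v := by
  rw [← map_smul, HD.E hj hv, map_sub, map_add, map_smul]

theorem Dcurl (b : Bool) {i : ℕ} (hi : i ≤ 2 * m) {v : V R} (hv : v ∈ Val (R := R) (m + 1)) :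
    D m i (X (m + 1) b i v) = cf R b • D m i v := by
  obtain ⟨H, HD⟩ := allRel (R := R) m
  have hx := H.mem b i (by omega) hi v hv
  have hD := HD.mem i hi v hv
  refine Binj hi (HD.mem i hi _ hx) (Submodule.smul_mem _ _ hD) ?_
  apply z_cancel
  rw [HD.E hi hx, map_smul, ← H.curl b i (by omega) hi _ hD, HD.E' (X (m + 1) b i) hi hv]
  cases b
  · rw [H.pn i (by omega) hi v hv, H.np i (by omega) hi v hv]
  · rw [H.pn i (by omega) hi v hv, H.np i (by omega) hi v hv]

theorem DX1 (b : Bool) {i j : ℕ} (hij : i ≤ j) (hj : j + 2 ≤ 2 * m) {v : V R}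
    (hv : v ∈ Val (R := R) (m + 1)) :
    D m i (X (m + 1) b (j + 2) v) = X m b j (D m i v) := by
  obtain ⟨H, HD⟩ := allRel (R := R) m
  have hx := H.mem b (j + 2) (by omega) hj v hv
  have hD := HD.mem i (by omega) v hv
  refine Binj (j := i) (by omega) (HD.mem i (by omega) _ hx) (H.mem0 b j hj _ hD) ?_
  apply z_cancel
  rw [HD.E (by omega) hx, ← H.xb b i j hij hj _ hD, HD.E' (X (m + 1) b (j + 2)) (by omega) hv]
  rw [H.xx true b i (j + 2) (by omega) (by omega) hj v hv,
    H.xx false b i (j + 2) (by omega) (by omega) hj v hv]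

theorem DX2 (b : Bool) {i j : ℕ} (hij : i + 2 ≤ j) (hj : j ≤ 2 * m) {v : V R}
    (hv : v ∈ Val (R := R) (m + 1)) :
    D m j (X (m + 1) b i v) = X m b i (D m j v) := by
  obtain ⟨H, HD⟩ := allRel (R := R) m
  have hx := H.mem b i (by omega) (by omega) v hv
  have hD := HD.mem j hj v hv
  refine Binj (j := j) hj (HD.mem j hj _ hx) (H.mem0 b i (by omega) _ hD) ?_
  apply z_cancel
  rw [HD.E hj hx, ← H.bx b j i (by omega) hij hj _ hD, HD.E' (X (m + 1) b i) hj hv]
  rw [H.xx b true i j (by omega) hij hj v hv, H.xx b false i j (by omega) hij hj v hv]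

theorem DB1 {i j : ℕ} (hij : i ≤ j) (hj : j ≤ 2 * m) {v : V R}
    (hv : v ∈ Val (R := R) (m + 1)) :
    D (m + 1) (j + 2) (B i v) = B i (D m j v) := by
  obtain ⟨H, HD⟩ := allRel (R := R) m
  obtain ⟨H1, HD1⟩ := allRel (R := R) (m + 1)
  have hB : B i v ∈ Val (R := R) (m + 1 + 1) := B_mem hv (by omega)
  have hD := HD.mem j hj v hv
  refine Binj (j := j + 2) (by omega) (HD1.mem _ (by omega) _ hB) (B_mem hD (by omega)) ?_
  apply z_cancel
  rw [HD1.E (by omega) hB, bb hij hj hD, HD.E' (B i) hj hv,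
    H1.xb true i j hij (by omega) v hv, H1.xb false i j hij (by omega) v hv]

theorem DB2 {i j : ℕ} (hij : i ≤ j) (hj : j ≤ 2 * m) {v : V R}
    (hv : v ∈ Val (R := R) (m + 1)) :
    D (m + 1) i (B (j + 2) v) = B j (D m i v) := by
  obtain ⟨H, HD⟩ := allRel (R := R) m
  obtain ⟨H1, HD1⟩ := allRel (R := R) (m + 1)
  have hB : B (j + 2) v ∈ Val (R := R) (m + 1 + 1) := B_mem hv (by omega)
  have hD := HD.mem i (by omega) v hv
  refine Binj (j := i) (by omega) (HD1.mem _ (by omega) _ hB) (B_mem hD (by omega)) ?_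
  apply z_cancel
  rw [HD1.E (by omega) hB, ← bb hij hj hD, HD.E' (B (j + 2)) (by omega) hv,
    H1.bx true (j + 2) i (by omega) (by omega) (by omega) v hv,
    H1.bx false (j + 2) i (by omega) (by omega) (by omega) v hv]

theorem DD {i j : ℕ} (hij : i ≤ j) (hj : j ≤ 2 * m) {v : V R}
    (hv : v ∈ Val (R := R) (m + 1 + 1)) :
    D m j (D (m + 1) i v) = D m i (D (m + 1) (j + 2) v) := by
  obtain ⟨H, HD⟩ := allRel (R := R) m
  obtain ⟨H1, HD1⟩ := allRel (R := R) (m + 1)
  have h1 := HD1.mem i (by omega) v hv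
  have h2 := HD1.mem (j + 2) (by omega) v hv
  have h3 := HD.mem j hj _ h1
  have h4 := HD.mem i (by omega) _ h2
  refine Binj (j := j) hj h3 h4 (Binj (j := i) (by omega) (B_mem h3 hj) (B_mem h4 hj) ?_)
  apply z_cancel
  apply z_cancel
  have m1 : ∀ b, X (m + 1) b j (D (m + 1) i v) = D (m + 1) i (X (m + 1 + 1) b (j + 2) v) :=
    fun b => (DX1 b hij (by omega) hv).symm
  rw [← map_smul (B i), HD.E hj h1, ← bb hij hj h4, ← map_smul (B (j + 2)),
    HD.E (by omega) h2]
  have m2 : ∀ b, X (m + 1) b i (D (m + 1) (j + 2) v) =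
      D (m + 1) (j + 2) (X (m + 1 + 1) b i v) :=
    fun b => (DX2 b (by omega) (by omega) hv).symm
  rw [m1, m1, m2, m2, ← map_smul (D (m + 1) i), ← map_add, ← map_sub,
    ← map_smul (D (m + 1) (j + 2)), ← map_add, ← map_sub]
  have k1 : X (m + 1 + 1) true (j + 2) v + X (m + 1 + 1) false (j + 2) v - (z : R) • v =
      (z : R) • B (j + 2) (D (m + 1) (j + 2) v) := (HD1.E (by omega) hv).symm
  have k2 : X (m + 1 + 1) true i v + X (m + 1 + 1) false i v - (z : R) • v =
      (z : R) • B i (D (m + 1) i v) := (HD1.E (by omega) hv).symm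
  have hm1 : (z : R) • B (j + 2) (D (m + 1) (j + 2) v) ∈ Val (R := R) (m + 1 + 1) :=
    Submodule.smul_mem _ _ (B_mem h2 (by omega))
  have hm2 : (z : R) • B i (D (m + 1) i v) ∈ Val (R := R) (m + 1 + 1) :=
    Submodule.smul_mem _ _ (B_mem h1 (by omega))
  rw [k1, k2, HD1.E (by omega) hm1, HD1.E (by omega) hm2, ← k1, ← k2]
  have xx' : ∀ b c, X (m + 1 + 1) b i (X (m + 1 + 1) c (j + 2) v) =
      X (m + 1 + 1) c (j + 2) (X (m + 1 + 1) b i v) :=
    fun b c => H1.xx b c i (j + 2) (by omega) (by omega) (by omega) v hv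
  simp only [map_add, map_sub, map_smul, xx']
  module

end

end

end Pool.Agent.Helper127.Kauf.Ex
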