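import Pool.Agent.Helper127.Kauf.Sound2
import Pool.Agent.Helper127.Kauf.Example
import Pool.Agent.Helper127.Kauf.Compute

set_option autoImplicit false

namespace Pool.Agent.Helper127.Kauf

open LaurentPolynomial Piece

noncomputable section

section
variable {M : Type} [AddCommGroup M] [Module Raz M] {Λ : Word → M}

theorem ap_smul (c : Raz) (w : Word) (f : Word → M) : ap (c • f) w = c • ap f w := rfl

theorem ap_append (u w : Word) (f : Word → M) : ap f (u ++ w) = ap (ap f u) w := by
  funext y
  show f ((u ++ w) ++ y) = f (u ++ (w ++ y))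
  rw [List.append_assoc]

theorem st_eq_ap (p : Piece) (f : Word → M) : st f p = ap f [p] := rfl

variable (hΛ : KauffmanRules Λ)
include hΛ

theorem sem_runZ (m : ℕ) (l : List (Bool × ℕ)) (v : Vec m) (h : ∀ t ∈ l, t.2 + 2 ≤ 2 * m) :
    sem Λ m (runZ m l v) = ap (sem Λ m v) (l.map crZ) := by
  induction l generalizing v with
  | nil => rfl
  | cons t l ih =>
    obtain ⟨b, j⟩ := t
    rw [runZ, ih _ (fun t ht => h t (List.mem_cons_of_mem _ ht)),
      sem_opZ hΛ m b j v (h (b, j) List.mem_cons_self)]
    rfl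

theorem sem_start : sem Λ 4 start = ap (extd Λ) [birth 0, birth 1, birth 4, birth 5] := by
  rw [start, sem_opG hΛ 3 5 0 _ (by omega), sem_opG hΛ 2 4 0 _ (by omega),
    sem_opG hΛ 1 1 0 _ (by omega), sem_opG hΛ 0 0 0 _ (by omega)]
  have e : sem Λ 0 ([(0, [1])] : Poly) = extd Λ := by
    show evalP [(0, [1])] • extd Λ = extd Λ
    simp [evalP, evalZ]
  rw [e]
  rfl

theorem sem_stage1 : sem Λ 3 stage1 = zVar • ap (extd Λ) part1 := by
  rw [stage1, sem_opD hΛ 2 5 _ (by omega), sem_runZ hΛ 4 _ _ (by decide), sem_start hΛ, part1,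
    ap_append, ap_append]
  rfl

theorem sem_birth (m i : ℕ) (v : Vec m) (h : i ≤ 2 * m) :
    sem Λ (m + 1) (opG m i 0 v) = ap (sem Λ m v) [birth i] := by
  rw [sem_opG hΛ m i 0 v (by omega)]
  rfl

theorem sem_stage2 : sem Λ 3 stage2 = zVar • zVar • ap (extd Λ) part2 := by
  rw [stage2, sem_opD hΛ 2 1 _ (by omega), sem_birth hΛ 3 5 _ (by omega), sem_stage1 hΛ, part2,
    ap_append, ap_append, ap_smul, st_smul]
  rfl

theorem sem_final : sem Λ 1 final =
    zVar • zVar • zVar • zVar • zVar • ap (extd Λ) part3 := by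
  rw [final, sem_opD hΛ 0 1 _ (by omega), sem_opD hΛ 1 4 _ (by omega),
    sem_opD hΛ 2 5 _ (by omega), sem_runZ hΛ 4 _ _ (by decide), sem_birth hΛ 3 1 _ (by omega),
    sem_stage2 hΛ, part3, ap_append, ap_append, ap_append, ap_append, ap_append, ap_smul, ap_smul,
    ap_smul, ap_smul, st_smul, st_smul, st_smul, st_smul, st_smul, st_smul, st_smul, st_smul]
  rfl

theorem foldS_tail (e : ℕ) (qs : List (Vec 0)) (he : 1 ≤ e) :
    foldS (fun e w => G 0 e (sem Λ 0 w)) e qs = 0 := by
  induction qs generalizing e with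
  | nil => rfl
  | cons q qs ih => rw [foldS, if_neg (by omega), ih _ (by omega), add_zero]

theorem sem_one (p : Poly) (ps : List (Vec 0)) :
    sem Λ 1 (p :: ps) = evalP p • st (extd Λ) (birth 0) := by
  show (if 0 ≤ 2 * 0 then _ else _) + _ = _
  rw [foldS_tail hΛ _ _ (le_refl 1), if_pos (le_refl 0), add_zero]
  rfl

end

/-- the value of the diagram times `z^5` -/
def polyZ : Raz := evalP (expected.headD [])

/-- the value of the diagram -/
def polyL : Raz := C (T (-5)) * polyZ

theorem final_cons : final = ((expected.headD [] : Poly) :: ([] : List (Vec 0)) : List (Vec 0)) :=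
  final_eq

theorem zpow5 : C (T (-5)) * zVar * zVar * zVar * zVar * zVar = (1 : Raz) := by
  rw [zVar, ← map_mul, ← map_mul, ← map_mul, ← map_mul, ← map_mul, ← T_add, ← T_add, ← T_add,
    ← T_add, ← T_add]
  simp

theorem value_L {M : Type} [AddCommGroup M] [Module Raz M] (Λ : Word → M)
    (hΛ : KauffmanRules Λ) : Λ (forget link) = polyL • Λ circle := by
  have h1 := sem_final hΛ
  rw [final_cons, sem_one hΛ] at h1
  have h2 := congrFun h1 [death 0]
  have e1 : (evalP (expected.headD []) • st (extd Λ) (birth 0)) [death 0] =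
      polyZ • Λ circle := by
    show polyZ • extd Λ circle = _
    rw [extd, if_pos (by decide)]
  have e2 : (zVar • zVar • zVar • zVar • zVar • ap (extd Λ) part3) [death 0] =
      zVar • zVar • zVar • zVar • zVar • Λ (forget link) := by
    show zVar • zVar • zVar • zVar • zVar • extd Λ (part3 ++ [death 0]) = _
    rw [← link_word, extd, if_pos closed_link]
  rw [e1, e2] at h2
  rw [polyL, mul_smul, h2, smul_smul, smul_smul, smul_smul, smul_smul, smul_smul, zpow5, one_smul]

/-! ### the exponents -/

theorem coeff_CT (c : LaurentPolynomial ℤ) (i k : ℤ) :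
    (C c * T i : Raz).coeff k = if i = k then c else 0 := by
  rw [← single_eq_C_mul_T, AddMonoidAlgebra.coeff_single]
  exact Finsupp.single_apply

theorem evalP_coeff_eq_zero (p : Poly) (k : ℤ) (h : ∀ t ∈ p, t.1 ≠ k) : (evalP p).coeff k = 0 := by
  induction p with
  | nil => rfl
  | cons t p ih =>
    obtain ⟨i, x⟩ := t
    rw [evalP, AddMonoidAlgebra.coeff_add, Finsupp.add_apply, coeff_CT,
      if_neg (h (i, x) List.mem_cons_self), zero_add,
      ih (fun t ht => h t (List.mem_cons_of_mem _ ht))]

theorem evalP_append (p q : Poly) : evalP (p ++ q) = evalP p + evalP q := by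
  induction p with
  | nil => simp [evalP]
  | cons t p ih =>
    obtain ⟨i, x⟩ := t
    rw [List.cons_append, evalP, evalP, ih, add_assoc]

theorem evalP_coeff_last (p : Poly) (k : ℤ) (x : ZP) (h : ∀ t ∈ p, t.1 < k) :
    (evalP (p ++ [(k, x)])).coeff k = evalZ x := by
  rw [evalP_append, AddMonoidAlgebra.coeff_add, Finsupp.add_apply,
    evalP_coeff_eq_zero p k (fun t ht => (h t ht).ne), zero_add, evalP, evalP, add_zero, coeff_CT,
    if_pos rfl]

theorem T_mul_coeff {R : Type} [CommSemiring R] (i k : ℤ) (f : LaurentPolynomial R) :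
    (T i * f).coeff k = f.coeff (k - i) := by
  rw [T, AddMonoidAlgebra.coeff_single_mul_apply, one_mul, neg_add_eq_sub]

theorem C_mul_coeff {R : Type} [CommSemiring R] (c : R) (k : ℤ) (f : LaurentPolynomial R) :
    (C c * f).coeff k = c * f.coeff k := by
  rw [← single_eq_C, AddMonoidAlgebra.coeff_single_mul_apply, neg_zero, zero_add]

theorem evalZ_coeff_neg (p : ZP) (n : ℤ) (hn : n < 0) : (evalZ p).coeff n = 0 := by
  induction p generalizing n with
  | nil => rfl
  | cons x p ih =>
    rw [evalZ, AddMonoidAlgebra.coeff_add, Finsupp.add_apply, C_apply, if_neg hn.ne, zero_add,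
      T_mul_coeff, ih _ (by omega)]

theorem evalZ_coeff (p : ZP) (n : ℕ) : (evalZ p).coeff (n : ℤ) = p.getD n 0 := by
  induction p generalizing n with
  | nil => rfl
  | cons x p ih =>
    rw [evalZ, AddMonoidAlgebra.coeff_add, Finsupp.add_apply, C_apply, T_mul_coeff]
    cases n with
    | zero =>
      rw [evalZ_coeff_neg _ _ (by norm_num)]
      simp
    | succ n =>
      have : ((n + 1 : ℕ) : ℤ) - 1 = (n : ℤ) := by push_cast; ring
      rw [this, ih, if_neg (by omega), zero_add, List.getD_cons_succ]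

/-- the terms of the example below the top power of `a` -/
def lowTerms : Poly := (expected.headD []).dropLast

theorem polyZ_eq : polyZ = evalP (lowTerms ++ [(2, [0, 0, 0, 0, 0, -2])]) := by
  rw [polyZ]
  congr 1

theorem polyZ_coeff_big (k : ℤ) (hk : 2 < k) : polyZ.coeff k = 0 := by
  rw [polyZ]
  refine evalP_coeff_eq_zero _ _ fun t ht => ?_
  have h : ∀ t ∈ (expected.headD [] : Poly), t.1 ≤ 2 := by decide
  have := h t ht
  omega

theorem polyZ_coeff_two : polyZ.coeff 2 = evalZ [0, 0, 0, 0, 0, -2] := by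
  rw [polyZ_eq]
  exact evalP_coeff_last _ _ _ (by decide)

theorem polyZ_coeff_two_ne : polyZ.coeff 2 ≠ 0 := by
  rw [polyZ_coeff_two]
  intro h
  have h1 := evalZ_coeff [0, 0, 0, 0, 0, -2] 5
  rw [h] at h1
  simp at h1

theorem normalised_coeff (k : ℤ) :
    (normalised 6 polyL).coeff k = T (-5) * polyZ.coeff (k + 6) := by
  rw [normalised, aPow, T_mul_coeff, polyL, C_mul_coeff, sub_neg_eq_add]

theorem isLeast_L : IsLeast (exponentsInv (normalised (writhe link) polyL)) 4 := by
  rw [writhe_link]
  constructor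
  · show (invert (normalised 6 polyL)).coeff 4 ≠ 0
    rw [invert_apply, normalised_coeff]
    intro h
    apply polyZ_coeff_two_ne
    have h2 : (T 5 : LaurentPolynomial ℤ) * (T (-5) * polyZ.coeff (-4 + 6)) = 0 := by
      rw [h, mul_zero]
    rw [← mul_assoc, ← T_add] at h2
    simpa using h2
  · intro n hn
    have hn' : (invert (normalised 6 polyL)).coeff n ≠ 0 := hn
    by_contra hlt
    apply hn'
    rw [invert_apply, normalised_coeff, polyZ_coeff_big _ (by omega), mul_zero]

theorem mem_seifertEuler : -2 ∈ seifertEuler link :=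
  ⟨surf, isSurface_surf, Relation.EqvGen.refl _, euler_surf⟩

theorem neg_two_le_chi : -2 ≤ chi link := by
  by_cases h : BddAbove (seifertEuler link)
  · exact le_csSup h mem_seifertEuler
  · rw [chi, Int.csSup_of_not_bddAbove h]
    norm_num

end

end Pool.Agent.Helper127.Kauf
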