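import Pool.Agent.Helper127.Kauf.Calc

set_option autoImplicit false

namespace Pool.Agent.Helper127.Kauf

open LaurentPolynomial Piece

noncomputable section

set_option linter.unusedSectionVars false

section
variable {M : Type} [AddCommGroup M] [Module Raz M]

/-- `neg s, neg (s+1), ..., neg (s+k-1)` -/
def Ng (s : ℕ) : ℕ → (Word → M) → (Word → M)
  | 0, f => f
  | k + 1, f => st (Ng s k f) (neg (s + k))

/-- the arc from `l` to `l + g + 1` running over everything -/
def G (l g : ℕ) (f : Word → M) : Word → M := Ng (l + 1) g (st f (birth l))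

/-- `pos (k-1), ..., pos 0` -/
def Lo : ℕ → (Word → M) → (Word → M)
  | 0, f => f
  | k + 1, f => Lo k (st f (pos k))

theorem Ng_zero (s : ℕ) (f : Word → M) : Ng s 0 f = f := rfl
theorem Ng_succ (s k : ℕ) (f : Word → M) : Ng s (k + 1) f = st (Ng s k f) (neg (s + k)) := rfl
theorem Lo_zero (f : Word → M) : Lo 0 f = f := rfl
theorem Lo_succ (k : ℕ) (f : Word → M) : Lo (k + 1) f = Lo k (st f (pos k)) := rfl
theorem G_zero (l : ℕ) (f : Word → M) : G l 0 f = st f (birth l) := rfl
theorem G_succ (l g : ℕ) (f : Word → M) :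
    G l (g + 1) f = st (G l g f) (neg (l + 1 + g)) := rfl

theorem Ng_head (s k : ℕ) (f : Word → M) : Ng s (k + 1) f = Ng (s + 1) k (st f (neg s)) := by
  induction k with
  | zero => rfl
  | succ k ih =>
    rw [Ng_succ, ih, Ng_succ]
    congr 2
    omega

theorem Ng_add (s k m : ℕ) (f : Word → M) : Ng s (k + m) f = Ng (s + k) m (Ng s k f) := by
  induction m with
  | zero => rfl
  | succ m ih =>
    rw [← Nat.add_assoc, Ng_succ, ih, Ng_succ]
    congr 2
    omega

theorem G_add (l g m : ℕ) (f : Word → M) : G l (g + m) f = Ng (l + 1 + g) m (G l g f) :=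
  Ng_add _ _ _ _

theorem Ng_lin (s k : ℕ) (f g : Word → M) : Ng s k (f + g) = Ng s k f + Ng s k g := by
  induction k with
  | zero => rfl
  | succ k ih => rw [Ng_succ, ih, st_add]; rfl

theorem Ng_smul (s k : ℕ) (c : Raz) (f : Word → M) : Ng s k (c • f) = c • Ng s k f := by
  induction k with
  | zero => rfl
  | succ k ih => rw [Ng_succ, ih, st_smul]; rfl

theorem Ng_neg (s k : ℕ) (f : Word → M) : Ng s k (-f) = -Ng s k f := by
  induction k with
  | zero => rfl
  | succ k ih => rw [Ng_succ, ih, st_neg]; rfl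

theorem Ng_zero' (s k : ℕ) : Ng s k (0 : Word → M) = 0 := by
  induction k with
  | zero => rfl
  | succ k ih => rw [Ng_succ, ih, st_zero]

theorem G_lin (l g : ℕ) (f h : Word → M) : G l g (f + h) = G l g f + G l g h := Ng_lin _ _ _ _
theorem G_smul (l g : ℕ) (c : Raz) (f : Word → M) : G l g (c • f) = c • G l g f :=
  Ng_smul _ _ _ _
theorem G_neg (l g : ℕ) (f : Word → M) : G l g (-f) = -G l g f := Ng_neg _ _ _
theorem G_zero' (l g : ℕ) : G l g (0 : Word → M) = 0 := Ng_zero' _ _

theorem Lo_smul (k : ℕ) (c : Raz) (f : Word → M) : Lo k (c • f) = c • Lo k f := by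
  induction k generalizing f with
  | zero => rfl
  | succ k ih => rw [Lo_succ, st_smul, ih]; rfl

variable {Λ : Word → M}

theorem Ng_mem {n s k : ℕ} {f : Word → M} (hf : f ∈ S Λ n) (h : s + k + 1 ≤ n) :
    Ng s k f ∈ S Λ n := by
  induction k with
  | zero => exact hf
  | succ k ih => exact neg_mem' (ih (by omega)) (by omega)

theorem G_mem {n l g : ℕ} {f : Word → M} (hf : f ∈ S Λ n) (h : l + g ≤ n) :
    G l g f ∈ S Λ (n + 2) := Ng_mem (birth_mem hf (by omega)) (by omega)

theorem Lo_mem {n k : ℕ} {f : Word → M} (hf : f ∈ S Λ n) (h : k + 1 ≤ n) : Lo k f ∈ S Λ n := by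
  induction k generalizing f with
  | zero => exact hf
  | succ k ih => exact ih (pos_mem hf (by omega)) (by omega)

variable (hΛ : KauffmanRules Λ)
include hΛ

variable {n : ℕ} {f : Word → M} (hf : f ∈ S Λ n)
include hf

/-! ### moving pieces through `Ng` -/

theorem Ng_cr_right (c : Bool) {s k j : ℕ} (h : s + k + 1 ≤ j) (hj : j + 2 ≤ n) :
    st (Ng s k f) (cr c j) = Ng s k (st f (cr c j)) := by
  induction k with
  | zero => rfl
  | succ k ih =>
    have hm := Ng_mem (s := s) (k := k) hf (by omega)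
    rw [Ng_succ, Ng_succ, ← cr_false, xx hΛ hm false c (by omega) hj, ih (by omega)]

theorem Ng_cr_left (c : Bool) {s k j : ℕ} (h : j + 2 ≤ s) (hk : s + k + 1 ≤ n) :
    st (Ng s k f) (cr c j) = Ng s k (st f (cr c j)) := by
  induction k with
  | zero => rfl
  | succ k ih =>
    have hm := Ng_mem (s := s) (k := k) hf (by omega)
    rw [Ng_succ, Ng_succ, ← cr_false, ← xx hΛ hm c false (by omega) (by omega), ih (by omega)]

theorem Ng_slide (c : Bool) {s k j : ℕ} (h : s ≤ j) (hj : j + 2 ≤ s + k) (hk : s + k + 1 ≤ n) :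
    st (Ng s k f) (cr c j) = Ng s k (st f (cr c (j + 1))) := by
  induction k with
  | zero => omega
  | succ k ih =>
    by_cases hc : j + 2 ≤ s + k
    · have hm := Ng_mem (s := s) (k := k) hf (by omega)
      rw [Ng_succ, Ng_succ, ← cr_false, ← xx hΛ hm c false hc (by omega), ih hc (by omega)]
    · -- `j + 1 = s + k`
      obtain ⟨k', rfl⟩ : ∃ k', k = k' + 1 := ⟨k - 1, by omega⟩
      have hj' : j = s + k' := by omega
      subst hj'
      have hm := Ng_mem (s := s) (k := k') hf (by omega)
      rw [Ng_succ, Ng_succ, Ng_succ, Ng_succ]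
      rw [show s + (k' + 1) = s + k' + 1 by omega]
      rw [slideX hΛ hm c (by omega)]
      rw [Ng_cr_right hΛ hf c (by omega) (by omega)]

theorem Ng_death_right {s k j : ℕ} (h : s + k + 1 ≤ j) (hj : j + 2 ≤ n) :
    st (Ng s k f) (death j) = Ng s k (st f (death j)) := by
  induction k with
  | zero => rfl
  | succ k ih =>
    have hm := Ng_mem (s := s) (k := k) hf (by omega)
    rw [Ng_succ, Ng_succ, ← cr_false, xd hΛ hm false (by omega) hj, ih (by omega)]

theorem Ng_death_left {s k j : ℕ} (h : j ≤ s) (hk : s + 2 + k + 1 ≤ n) :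
    st (Ng (s + 2) k f) (death j) = Ng s k (st f (death j)) := by
  induction k with
  | zero => rfl
  | succ k ih =>
    have hm := Ng_mem (s := s + 2) (k := k) hf (by omega)
    rw [Ng_succ, Ng_succ, ← cr_false, ← ih (by omega), ← cr_false,
      dx hΛ hm false (by omega) (by omega)]
    congr 3
    omega

/-- an over strand passes over a death -/
theorem over_death {j : ℕ} (h : j + 3 ≤ n) :
    st (st (st f (neg j)) (neg (j + 1))) (death j) = st f (death (j + 1)) := by
  rw [sd2 hΛ (neg_mem' hf (by omega)) h, np hΛ hf (by omega)]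

theorem Ng_death_slide {s k j : ℕ} (h : s ≤ j) (hj : j ≤ s + k) (hk : s + k + 3 ≤ n) :
    st (Ng s (k + 2) f) (death j) = Ng s k (st f (death (j + 1))) := by
  induction k with
  | zero =>
    have : j = s := by omega
    subst this
    exact over_death hΛ hf (by omega)
  | succ k ih =>
    by_cases hc : j ≤ s + k
    · have hm := Ng_mem (s := s) (k := k + 2) hf (by omega)
      have e1 := dx hΛ hm false hc (by omega)
      rw [cr_false, cr_false, ih hc (by omega)] at e1
      exact e1.symm
    · have hj' : j = s + k + 1 := by omega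
      subst hj'
      rw [show k + 1 + 2 = (k + 1) + 1 + 1 by omega, Ng_succ, Ng_succ]
      have hm := Ng_mem (s := s) (k := k + 1) hf (by omega)
      rw [show s + (k + 1) = s + k + 1 by omega, show s + (k + 1 + 1) = s + k + 1 + 1 by omega]
      rw [over_death hΛ hm (by omega), Ng_death_right hΛ hf (by omega) (by omega)]

theorem Ng_birth_right {s k l : ℕ} (h : s + k + 1 ≤ l) (hl : l ≤ n) :
    st (Ng s k f) (birth l) = Ng s k (st f (birth l)) := by
  induction k with
  | zero => rfl
  | succ k ih =>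
    have hm := Ng_mem (s := s) (k := k) hf (by omega)
    rw [Ng_succ, Ng_succ, ← cr_false, xb hΛ hm false (by omega) hl, ih (by omega)]

/-- an over strand at position `l` passes over a birth -/
theorem over_birth {l : ℕ} (h : l < n) :
    st f (birth l) = st (st (st f (birth (l + 1))) (neg l)) (neg (l + 1)) := by
  rw [← sb1 hΛ hf h, pn hΛ (birth_mem hf h.le) (by omega)]

theorem Ng_birth_mid {s k l : ℕ} (h : s ≤ l) (hl : l ≤ s + k) (hk : s + k + 1 ≤ n) :
    st (Ng s k f) (birth l) = Ng s (k + 2) (st f (birth (l + 1))) := by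
  induction k with
  | zero =>
    have : l = s := by omega
    subst this
    exact over_birth hΛ hf (by omega)
  | succ k ih =>
    have hm := Ng_mem (s := s) (k := k) hf (by omega)
    by_cases hc : l ≤ s + k
    · rw [Ng_succ, ← cr_false, ← bx hΛ hm false hc (by omega), ih hc (by omega)]
      rfl
    · have hl' : l = s + k + 1 := by omega
      subst hl'
      rw [over_birth hΛ (Ng_mem hf (by omega)) (by omega), Ng_succ, ← cr_false,
        xb hΛ hm false (by omega) (by omega), Ng_birth_right hΛ hf (by omega) (by omega)]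
      rfl

theorem G_cr_right (c : Bool) {e i : ℕ} (h : e ≤ i) (hi : i + 2 ≤ n) :
    st (G 0 e f) (cr c (i + 2)) = G 0 e (st f (cr c i)) := by
  unfold G
  rw [Ng_cr_right hΛ (birth_mem hf (by omega)) c (by omega) (by omega),
    bx hΛ hf c (by omega) hi]

theorem G_cr_slide (c : Bool) {e i : ℕ} (h : i + 2 ≤ e) (he : e ≤ n) :
    st (G 0 e f) (cr c (i + 1)) = G 0 e (st f (cr c i)) := by
  unfold G
  rw [Ng_slide hΛ (birth_mem hf (by omega)) c (by omega) (by omega) (by omega),
    bx hΛ hf c (by omega) (by omega)]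

theorem G_pos_end {e : ℕ} (he : e + 1 ≤ n) :
    st (G 0 (e + 1) f) (pos (e + 1)) = G 0 e f := by
  rw [G_succ, show 0 + 1 + e = e + 1 by omega]
  exact np hΛ (G_mem hf (by omega)) (by omega)

theorem G_neg_next (e : ℕ) : st (G 0 e f) (neg (e + 1)) = G 0 (e + 1) f := by
  rw [G_succ, show 0 + 1 + e = e + 1 by omega]

theorem G_death_next {e : ℕ} (he : e + 1 ≤ n) :
    st (G 0 e f) (death (e + 1)) = Lo e f := by
  induction e generalizing f with
  | zero => exact zig1 hΛ hf (by omega)
  | succ e ih =>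
    rw [G_succ, show 0 + 1 + e = e + 1 by omega]
    rw [← sd1 hΛ (G_mem hf (by omega)) (by omega)]
    rw [← cr_true, show e + 1 + 1 = e + 2 by omega, G_cr_right hΛ hf true (le_refl e) (by omega),
      cr_true, ih (pos_mem hf (by omega)) (by omega), Lo_succ]

theorem G_death_end {e : ℕ} (he : e + 1 ≤ n) :
    st (G 0 (e + 1) f) (death (e + 1)) = aPow 1 • Lo e f := by
  rw [G_succ, show 0 + 1 + e = e + 1 by omega]
  rw [curlDN hΛ (G_mem hf (by omega)) (by omega), G_death_next hΛ hf he]

theorem G_death_slide {e i : ℕ} (h : i ≤ e) (he : e + 2 ≤ n) :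
    st (G 0 (e + 2) f) (death (i + 1)) = G 0 e (st f (death i)) := by
  unfold G
  rw [Ng_death_slide hΛ (birth_mem hf (by omega)) (by omega) (by omega) (by omega),
    bd hΛ hf (by omega) (by omega)]

theorem G_death_right {e i : ℕ} (h : e ≤ i) (hi : i + 2 ≤ n) :
    st (G 0 e f) (death (i + 2)) = G 0 e (st f (death i)) := by
  unfold G
  rw [Ng_death_right hΛ (birth_mem hf (by omega)) (by omega) (by omega),
    bd hΛ hf (by omega) (by omega)]

theorem G_death_first {e : ℕ} (he : e + 1 ≤ n) :
    st (G 0 (e + 1) f) (death 0) = aPow (-1) • Ng 0 e f := by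
  unfold G
  rw [Ng_head, Ng_death_left hΛ (neg_mem' (birth_mem hf (by omega)) (by omega)) (by omega)
    (by omega), sd2 hΛ (birth_mem hf (by omega)) (by omega), curlBP hΛ hf (by omega), st_smul,
    zig1 hΛ hf (by omega), Ng_smul]

theorem G_neg_first {e : ℕ} (he : e + 1 ≤ n) :
    st (G 0 (e + 1) f) (neg 0) = G 1 e f := by
  unfold G
  have e1 := Ng_cr_left hΛ (neg_mem' (birth_mem hf (i := 0) (by omega)) (i := 0 + 1) (by omega))
    false (s := 0 + 1 + 1) (k := e) (j := 0) (by omega) (by omega)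
  rw [cr_false] at e1
  rw [Ng_head, e1, sb2 hΛ hf (by omega), pn hΛ (birth_mem hf (by omega)) (by omega)]

theorem bigon {i : ℕ} (h : i < n) :
    zVar • st (st f (birth i)) (death i) = (aPow 1 + aPow (-1) - zVar) • f := by
  have m1 := birth_mem (i := i) hf h.le
  have e := skein_st hΛ m1 (i := i) (by omega)
  rw [curlBP hΛ hf h.le, curlBN hΛ hf h.le] at e
  have e2 := congrArg (fun g => st g (death (i + 1))) e
  simp only [st_add, st_smul] at e2
  rw [zig1 hΛ hf h, zig1 hΛ (death_mem m1 h.le) h] at e2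
  rw [sub_smul, add_smul, eq_sub_iff_add_eq, add_comm (aPow 1 • f), e2, smul_add, add_comm]

/-! ### exchanging arcs -/

theorem G_far {l g e : ℕ} (h : e ≤ l) (hl : l + g ≤ n) :
    G (l + 2) g (G 0 e f) = G 0 e (G l g f) := by
  induction g with
  | zero =>
    rw [G_zero, G_zero]
    unfold G
    rw [Ng_birth_right hΛ (birth_mem hf (by omega)) (by omega) (by omega),
      bb hΛ hf (by omega) (by omega)]
  | succ g ih =>
    rw [G_succ, ih (by omega), G_succ]
    rw [show l + 2 + 1 + g = l + 1 + g + 2 by omega, ← cr_false,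
      G_cr_right hΛ (G_mem hf (by omega)) false (by omega) (by omega)]
    rfl

theorem G_nested {l g e : ℕ} (h : l + g ≤ e) (he : e ≤ n) :
    G (l + 1) g (G 0 e f) = G 0 (e + 2) (G l g f) := by
  induction g with
  | zero =>
    rw [G_zero, G_zero]
    unfold G
    rw [Ng_birth_mid hΛ (birth_mem hf (by omega)) (s := 0 + 1) (k := e) (l := l + 1) (by omega)
      (by omega) (by omega), bb hΛ hf (by omega) (by omega)]
  | succ g ih =>
    have e1 := G_cr_slide hΛ (G_mem (l := l) (g := g) hf (by omega)) false (e := e + 2)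
      (i := l + 1 + g) (by omega) (by omega)
    rw [cr_false, cr_false] at e1
    rw [G_succ (l + 1) g, ih (by omega), G_succ l g, ← e1]
    congr 2
    omega

theorem Lo_neg_right {k j : ℕ} (h : k + 1 ≤ j) (hj : j + 2 ≤ n) (c : Bool) :
    Lo k (st f (cr c j)) = st (Lo k f) (cr c j) := by
  induction k generalizing f with
  | zero => rfl
  | succ k ih =>
    rw [Lo_succ, Lo_succ, ← cr_true, ← xx hΛ hf true c (by omega) hj,
      ih (cr_mem hf true (by omega)) (by omega)]

/-- the arc born at `k` whose left end moves to the left end equals the arc born at the left -/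
theorem Lo_birth {k : ℕ} (h : k ≤ n) : Lo k (st f (birth k)) = G 0 k f := by
  induction k with
  | zero => rfl
  | succ k ih =>
    rw [Lo_succ, ← sb2 hΛ hf (by omega), ← cr_false,
      Lo_neg_right hΛ (birth_mem hf (by omega)) (by omega) (by omega), ih (by omega), G_succ,
      cr_false, show 0 + 1 + k = k + 1 by omega]

/-- retracting an arc -/
theorem Lo_G {l g : ℕ} (h : l + g ≤ n) : Lo (l + g + 1) (G l g f) = aPow (-1) • G 0 l f := by
  induction g with
  | zero =>
    rw [G_zero, Lo_succ, curlBP hΛ hf (by omega), Lo_smul,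
      Lo_birth hΛ hf (by omega)]
  | succ g ih =>
    rw [G_succ, Lo_succ, show l + (g + 1) = l + 1 + g by omega,
      np hΛ (G_mem hf (by omega)) (by omega), show l + 1 + g = l + g + 1 by omega,
      ih (by omega)]

theorem G_Ng_right {s m e : ℕ} (h : e ≤ s) (hm : s + m + 1 ≤ n) :
    Ng (s + 2) m (G 0 e f) = G 0 e (Ng s m f) := by
  induction m with
  | zero => rfl
  | succ m ih =>
    have e1 := G_cr_right hΛ (Ng_mem (s := s) (k := m) hf (by omega)) false (e := e) (i := s + m)
      (by omega) (by omega)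
    rw [cr_false, cr_false] at e1
    rw [Ng_succ, Ng_succ, ih (by omega), ← e1]
    congr 2
    omega

theorem neg_eq {i : ℕ} (h : i + 2 ≤ n) :
    st f (neg i) = -st f (pos i) + zVar • (f + st (st f (death i)) (birth i)) := by
  rw [← skein_st hΛ hf h]; abel

theorem pos_eq {i : ℕ} (h : i + 2 ≤ n) :
    st f (pos i) = -st f (neg i) + zVar • (f + st (st f (death i)) (birth i)) := by
  rw [← skein_st hΛ hf h]; abel

omit hΛ hf in
theorem a_cancel (g : Word → M) : aPow 1 • aPow (-1) • g = g := by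
  rw [smul_smul, aPow, aPow, ← T_add]
  simp

theorem G_cross {l d m : ℕ} (h : l + d + m ≤ n) :
    G (l + 1) (d + 1 + m) (G 0 (l + d) f) = -G 0 (l + d + 1) (G l (d + m) f) +
      zVar • (G 0 l (G (l + d) m f) + G 0 (l + d + m + 2) (G l d f)) := by
  have hf' : G l d f ∈ S Λ (n + 2) := G_mem hf (by omega)
  have hH : G 0 (l + d + 1 + 1) (G l d f) ∈ S Λ (n + 2 + 2) := G_mem hf' (by omega)
  rw [Nat.add_assoc d 1 m, G_add, G_nested hΛ hf (le_refl (l + d)) (by omega), Nat.add_comm 1 m,
    Ng_head, show l + 1 + 1 + d = l + d + 1 + 1 by omega, show l + d + 2 = l + d + 1 + 1 by omega,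
    neg_eq hΛ hH (by omega), G_pos_end hΛ hf' (by omega), G_death_end hΛ hf' (by omega),
    Lo_G hΛ hf (by omega), a_cancel, Ng_lin, Ng_neg, Ng_smul, Ng_lin]
  have t1 : Ng (l + d + 1 + 1 + 1) m (G 0 (l + d + 1) (G l d f)) =
      G 0 (l + d + 1) (G l (d + m) f) := by
    rw [show l + d + 1 + 1 + 1 = (l + d + 1) + 2 by omega, G_Ng_right hΛ hf' (le_refl _)
      (by omega), G_add l d m, show l + 1 + d = l + d + 1 by omega]
  have t2 : Ng (l + d + 1 + 1 + 1) m (G 0 (l + d + 1 + 1) (G l d f)) =
      G 0 (l + d + m + 2) (G l d f) := by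
    rw [show l + d + m + 2 = l + d + 1 + 1 + m by omega, G_add 0 (l + d + 1 + 1) m,
      show 0 + 1 + (l + d + 1 + 1) = l + d + 1 + 1 + 1 by omega]
  have t3 : Ng (l + d + 1 + 1 + 1) m (st (G 0 l f) (birth (l + d + 1 + 1))) =
      G 0 l (G (l + d) m f) := by
    rw [← G_far hΛ hf (by omega) h]
    rfl
  rw [t1, t2, t3, add_comm (G 0 (l + d + m + 2) (G l d f))]

theorem G_pos_next {e : ℕ} (he : e + 1 ≤ n) :
    st (G 0 e f) (pos (e + 1)) =
      -G 0 (e + 1) f + zVar • (G 0 e f + G (e + 1) 0 (Lo e f)) := by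
  rw [pos_eq hΛ (G_mem (l := 0) (g := e) hf (by omega)) (by omega), G_neg_next hΛ hf,
    G_death_next hΛ hf he]
  rfl

theorem G_neg_end {e : ℕ} (he : e + 1 ≤ n) :
    st (G 0 (e + 1) f) (neg (e + 1)) =
      -G 0 e f + zVar • (G 0 (e + 1) f + aPow 1 • G (e + 1) 0 (Lo e f)) := by
  rw [neg_eq hΛ (G_mem (l := 0) (g := e + 1) hf (by omega)) (by omega), G_pos_end hΛ hf he,
    G_death_end hΛ hf he, st_smul]
  rfl

theorem G_pos_first {e : ℕ} (he : e + 1 ≤ n) :
    st (G 0 (e + 1) f) (pos 0) =
      -G 1 e f + zVar • (G 0 (e + 1) f + G 0 0 (aPow (-1) • Ng 0 e f)) := by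
  rw [pos_eq hΛ (G_mem (l := 0) (g := e + 1) hf (by omega)) (by omega), G_neg_first hΛ hf he,
    G_death_first hΛ hf he]
  rfl

end

end

end Pool.Agent.Helper127.Kauf
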